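import Mathlib
import Pool.Agent.Y251.CP.D4
import Pool.Agent.TH277.HT.A
set_option autoImplicit false

/-! # The kernel of one pair of variables -/

namespace Pool.Agent.Y251.HB

open MeasureTheory Set Metric Complex Filter
open Pool.Agent.Y251.CP (HasDbar dbar hasDbar_const hasDbar_id hasDbar_conj_holo)
open Pool.Agent.TH277.HT (ch ch_norm ch_cont ch_add)
open scoped ENNReal NNReal ComplexConjugate Topology

/-- the entire function `(e^s - 1)/s` -/
noncomputable def f1 (s : ℂ) : ℂ := dslope Complex.exp 0 s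

lemma f1_mul (s : ℂ) : s * f1 s = cexp s - 1 := by
  have h := sub_smul_dslope Complex.exp 0 s
  simpa [f1, smul_eq_mul] using h

lemma f1_diff : Differentiable ℂ f1 := by
  have h : DifferentiableOn ℂ (dslope Complex.exp 0) univ :=
    (Complex.differentiableOn_dslope univ_mem).2 Complex.differentiable_exp.differentiableOn
  exact differentiableOn_univ.1 h

lemma f1_der (s : ℂ) : f1 s + s * deriv f1 s = cexp s := by
  have h1 : HasDerivAt (fun s => s * f1 s) (1 * f1 s + s * deriv f1 s) s :=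
    (hasDerivAt_id s).mul (f1_diff s).hasDerivAt
  have h2 : HasDerivAt (fun s => s * f1 s) (cexp s) s := by
    have h3 : (fun s => s * f1 s) = fun s => cexp s - 1 := funext f1_mul
    rw [h3]
    exact (Complex.hasDerivAt_exp s).sub_const 1
  have h3 := h1.unique h2
  rw [one_mul] at h3
  exact h3

lemma f1_le (y : ℝ) : ‖f1 (y * I)‖ ≤ 1 := by
  by_cases hy : y = 0
  · subst hy
    have : f1 0 = 1 := by
      unfold f1
      rw [dslope_same, Complex.deriv_exp, Complex.exp_zero]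
    simp [this]
  have h1 := f1_mul (y * I)
  have h2 : ‖cexp (y * I) - 1‖ ≤ |y| := by
    have := Real.norm_exp_I_mul_ofReal_sub_one_le (x := y)
    rw [mul_comm I] at this
    simpa using this
  rw [← h1, norm_mul, norm_mul, Complex.norm_I, mul_one, Complex.norm_real, Real.norm_eq_abs] at h2
  have hp : 0 < |y| := abs_pos.2 hy
  by_contra hc
  push Not at hc
  nlinarith

lemma f1_le' (y : ℝ) : |y| * ‖f1 (y * I)‖ ≤ 2 := by
  have h1 := f1_mul (y * I)
  have h2 : ‖cexp (y * I) - 1‖ ≤ 2 := by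
    refine (norm_sub_le _ _).trans ?_
    rw [norm_exp_ofReal_mul_I, norm_one]
    norm_num
  rw [← h1, norm_mul, norm_mul, Complex.norm_I, mul_one, Complex.norm_real, Real.norm_eq_abs] at h2
  exact h2

/-- the constant in the exponent -/
noncomputable def Ac (t : ℝ) : ℂ := ((2 * Real.pi * t : ℝ) : ℂ) * I

lemma Ac_ne {t : ℝ} (ht : t ≠ 0) : Ac t ≠ 0 := by
  unfold Ac
  apply mul_ne_zero _ I_ne_zero
  norm_cast
  have := Real.pi_pos
  positivity

lemma Ac_norm (t : ℝ) : ‖Ac t‖ = 2 * Real.pi * |t| := by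
  unfold Ac
  rw [norm_mul, Complex.norm_I, mul_one, Complex.norm_real, Real.norm_eq_abs, abs_mul,
    abs_of_pos (by have := Real.pi_pos; positivity)]

lemma Ac_sq (t : ℝ) (w : ℂ) : Ac t * (w * conj w) = ((2 * Real.pi * t * ‖w‖ ^ 2 : ℝ) : ℂ) * I := by
  unfold Ac
  rw [mul_conj, normSq_eq_norm_sq]
  push_cast
  ring

/-- the kernel -/
noncomputable def kap (t : ℝ) (z0 z : ℂ) : ℂ :=
  conj (z - z0) * f1 (Ac t * ((z - z0) * conj (z - z0)))

lemma kap_dbar (t : ℝ) (z0 z : ℂ) :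
    HasDbar (kap t z0) (cexp (Ac t * ((z - z0) * conj (z - z0)))) z := by
  have h1 : HasDbar (fun w => w - z0) 0 z :=
    ((hasDbar_id z).sub (hasDbar_const z0 z)).congr (by ring)
  have h2 : HasDbar (fun w => conj (w - z0)) 1 z := by
    have : HasDerivAt (fun w : ℂ => w - z0) 1 z := (hasDerivAt_id z).sub_const z0
    exact (hasDbar_conj_holo this).congr (by simp)
  have h3 := (h1.mul h2).const_mul (Ac t)
  have h4 := HasDbar.comp_holo (g := f1) (φ := fun w => Ac t * ((w - z0) * conj (w - z0)))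
    (f1_diff _).hasDerivAt h3
  have h5 := h2.mul h4
  refine HasDbar.congr h5 ?_
  rw [← f1_der]
  ring

lemma kap_smooth (t : ℝ) (z0 : ℂ) (n : WithTop ℕ∞) : ContDiff ℝ n (kap t z0) := by
  have h1 : ContDiff ℝ n (fun w : ℂ => w - z0) := contDiff_id.sub contDiff_const
  have h2 : ContDiff ℝ n (fun w : ℂ => conj (w - z0)) :=
    (conjCLE : ℂ →L[ℝ] ℂ).contDiff.comp h1
  have h3 := contDiff_const (c := Ac t).mul (h1.mul h2)
  have h4 : ContDiff ℂ n f1 := f1_diff.contDiff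
  exact h2.mul ((h4.restrict_scalars ℝ).comp h3)

lemma kap_eq (t : ℝ) (z0 z : ℂ) :
    ‖kap t z0 z‖ = ‖z - z0‖ * ‖f1 ((2 * Real.pi * t * ‖z - z0‖ ^ 2 : ℝ) * I)‖ := by
  unfold kap
  rw [norm_mul, Ac_sq, RCLike.norm_conj]

lemma kap_le (t : ℝ) (z0 z : ℂ) : ‖kap t z0 z‖ ≤ ‖z - z0‖ := by
  rw [kap_eq]
  have := f1_le (2 * Real.pi * t * ‖z - z0‖ ^ 2)
  have h := norm_nonneg (z - z0)
  nlinarith

lemma kap_le' {t : ℝ} (z0 z : ℂ) :
    (Real.pi * |t| * ‖z - z0‖) * ‖kap t z0 z‖ ≤ 1 := by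
  rw [kap_eq]
  have := f1_le' (2 * Real.pi * t * ‖z - z0‖ ^ 2)
  rw [abs_mul, abs_mul, abs_of_pos (by have := Real.pi_pos; positivity : (0 : ℝ) < 2 * Real.pi),
    abs_of_nonneg (by positivity : 0 ≤ ‖z - z0‖ ^ 2)] at this
  nlinarith

/-- the second kernel -/
noncomputable def kap2 (t : ℝ) (z0 z : ℂ) : ℂ :=
  (cexp (Ac t * ((z - z0) * conj (z - z0))) - cexp (Ac t * (z0 * conj z0))) * (Ac t * (z - z0))⁻¹

lemma kap2_dbar {t : ℝ} (ht : t ≠ 0) {z0 z : ℂ} (hz : z ≠ z0) :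
    HasDbar (kap2 t z0) (cexp (Ac t * ((z - z0) * conj (z - z0)))) z := by
  have h1 : HasDbar (fun w => w - z0) 0 z :=
    ((hasDbar_id z).sub (hasDbar_const z0 z)).congr (by ring)
  have h2 : HasDbar (fun w => conj (w - z0)) 1 z := by
    have : HasDerivAt (fun w : ℂ => w - z0) 1 z := (hasDerivAt_id z).sub_const z0
    exact (hasDbar_conj_holo this).congr (by simp)
  have h3 := ((h1.mul h2).const_mul (Ac t)).cexp.sub (hasDbar_const (cexp (Ac t * (z0 * conj z0))) z)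
  have hne : Ac t * (z - z0) ≠ 0 := mul_ne_zero (Ac_ne ht) (sub_ne_zero.2 hz)
  have h4 := (h1.const_mul (Ac t)).inv hne
  have h5 := h3.mul h4
  refine HasDbar.congr h5 ?_
  have ha := Ac_ne ht
  have hb := sub_ne_zero.2 hz
  field_simp
  ring

lemma kap2_smooth {t : ℝ} (ht : t ≠ 0) {z0 z : ℂ} (hz : z ≠ z0) (n : WithTop ℕ∞) :
    ContDiffAt ℝ n (kap2 t z0) z := by
  have h1 : ContDiff ℝ n (fun w : ℂ => w - z0) := contDiff_id.sub contDiff_const
  have h2 : ContDiff ℝ n (fun w : ℂ => conj (w - z0)) :=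
    (conjCLE : ℂ →L[ℝ] ℂ).contDiff.comp h1
  have h3 : ContDiff ℝ n fun w : ℂ => cexp (Ac t * ((w - z0) * conj (w - z0))) :=
    (contDiff_const.mul (h1.mul h2)).cexp
  have h4 : ContDiff ℝ n fun w : ℂ => Ac t * (w - z0) := contDiff_const.mul h1
  have hne : Ac t * (z - z0) ≠ 0 := mul_ne_zero (Ac_ne ht) (sub_ne_zero.2 hz)
  exact (h3.sub contDiff_const).contDiffAt.mul (h4.contDiffAt.inv hne)

lemma exp_sq_norm (t : ℝ) (w : ℂ) : ‖cexp (Ac t * (w * conj w))‖ = 1 := by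
  rw [Ac_sq, norm_exp_ofReal_mul_I]

lemma kap2_le' {t : ℝ} (ht : t ≠ 0) {z0 z : ℂ} (hz : z ≠ z0) :
    (Real.pi * |t| * ‖z - z0‖) * ‖kap2 t z0 z‖ ≤ 1 := by
  have h1 : ‖cexp (Ac t * ((z - z0) * conj (z - z0))) - cexp (Ac t * (z0 * conj z0))‖ ≤ 2 := by
    refine (norm_sub_le _ _).trans ?_
    rw [exp_sq_norm, exp_sq_norm]
    norm_num
  unfold kap2
  rw [norm_mul, norm_inv, norm_mul, Ac_norm]
  have hp : 0 < ‖z - z0‖ := norm_pos_iff.2 (sub_ne_zero.2 hz)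
  have htp : 0 < |t| := abs_pos.2 ht
  have hpi := Real.pi_pos
  rw [← mul_assoc, mul_comm (Real.pi * |t| * ‖z - z0‖), mul_assoc]
  have h2 : Real.pi * |t| * ‖z - z0‖ * (2 * Real.pi * |t| * ‖z - z0‖)⁻¹ = 1 / 2 := by
    field_simp
  rw [h2]
  linarith

lemma kap2_le {t : ℝ} (ht : t ≠ 0) {z0 z : ℂ} (h0 : 3 ≤ ‖z0‖) (hz : ‖z‖ ≤ 2) :
    ‖kap2 t z0 z‖ ≤ 8 := by
  have hw : ‖z0‖ ≤ ‖z - z0‖ + ‖z‖ := by
    have := norm_sub_norm_le z0 z
    rw [norm_sub_rev] at this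
    linarith
  have hw' : ‖z - z0‖ ≤ ‖z0‖ + ‖z‖ := by
    have := norm_sub_le z z0
    linarith
  have hp : 1 ≤ ‖z - z0‖ := by linarith
  have htp : 0 < |t| := abs_pos.2 ht
  have hpi := Real.pi_pos
  have h1 : ‖cexp (Ac t * ((z - z0) * conj (z - z0))) - cexp (Ac t * (z0 * conj z0))‖ ≤
      2 * Real.pi * |t| * |‖z - z0‖ ^ 2 - ‖z0‖ ^ 2| := by
    have e : cexp (Ac t * ((z - z0) * conj (z - z0))) - cexp (Ac t * (z0 * conj z0)) =
        cexp (Ac t * (z0 * conj z0)) *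
          (cexp (I * ((2 * Real.pi * t * (‖z - z0‖ ^ 2 - ‖z0‖ ^ 2) : ℝ) : ℂ)) - 1) := by
      rw [mul_sub, mul_one, ← Complex.exp_add, Ac_sq, Ac_sq]
      congr 2
      push_cast
      ring
    rw [e, norm_mul, exp_sq_norm, one_mul]
    refine Real.norm_exp_I_mul_ofReal_sub_one_le.trans (le_of_eq ?_)
    rw [Real.norm_eq_abs, abs_mul, abs_mul, abs_of_pos (by positivity : (0 : ℝ) < 2 * Real.pi)]
  have h2 : |‖z - z0‖ ^ 2 - ‖z0‖ ^ 2| ≤ ‖z‖ * (‖z - z0‖ + ‖z0‖) := by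
    have e : ‖z - z0‖ ^ 2 - ‖z0‖ ^ 2 = (‖z - z0‖ - ‖z0‖) * (‖z - z0‖ + ‖z0‖) := by ring
    rw [e, abs_mul, abs_of_nonneg (by positivity : 0 ≤ ‖z - z0‖ + ‖z0‖)]
    apply mul_le_mul_of_nonneg_right _ (by positivity)
    rw [abs_le]
    constructor <;> linarith
  unfold kap2
  rw [norm_mul, norm_inv, norm_mul, Ac_norm, ← div_eq_mul_inv, div_le_iff₀ (by positivity)]
  refine h1.trans ?_
  have h3 : |‖z - z0‖ ^ 2 - ‖z0‖ ^ 2| ≤ 8 * ‖z - z0‖ := by
    refine h2.trans ?_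
    have h4 : ‖z0‖ ≤ 3 * ‖z - z0‖ := by linarith
    have h5 : 0 ≤ ‖z‖ := norm_nonneg z
    nlinarith
  have h6 : 0 < 2 * Real.pi * |t| := by positivity
  nlinarith

/-- the bound for the kernel -/
noncomputable def kk (t : ℝ) (x z : ℂ) : ℝ≥0∞ := min 8 (‖x + (2 * t : ℝ) • z‖ₑ⁻¹)

lemma bd_of {t : ℝ} {x z K : ℂ} (h8 : ‖K‖ ≤ 8) (h : ‖x + (2 * t : ℝ) • z‖ * ‖K‖ ≤ 1) :
    ‖K‖ₑ ≤ kk t x z := by
  unfold kk
  apply le_min
  · rw [← ofReal_norm]
    calc ENNReal.ofReal ‖K‖ ≤ ENNReal.ofReal 8 := ENNReal.ofReal_le_ofReal h8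
      _ = 8 := by norm_num
  · rw [ENNReal.le_inv_iff_mul_le, ← ofReal_norm, ← ofReal_norm, ← ENNReal.ofReal_mul (norm_nonneg _),
      ENNReal.ofReal_le_one, mul_comm]
    exact h

/-- The kernel of one pair of variables: a test function `Φ` with `∂Φ/∂z̄ = e^{2πi(z·x + t|z|²)}` for
`|z| < 3/2`. -/
theorem kern {t : ℝ} (ht : t ≠ 0) (x : ℂ) : ∃ Φ : ℂ → ℂ,
    ContDiff ℝ ((⊤ : ℕ∞) : WithTop ℕ∞) Φ ∧ HasCompactSupport Φ ∧
    (∀ z : ℂ, ‖z‖ < 3 / 2 → dbar Φ z = ch (z.re * x.re + z.im * x.im + ‖z‖ ^ 2 * t)) ∧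
    ∀ z, ‖Φ z‖ₑ ≤ kk t x z := by
  set z0 : ℂ := (-(2 * t)⁻¹ : ℝ) • x with hz0
  set χ : ContDiffBump (0 : ℂ) := ⟨3 / 2, 2, by norm_num, by norm_num⟩ with hχ
  have hpi := Real.pi_gt_three
  have htp : 0 < |t| := abs_pos.2 ht
  set K : ℂ → ℂ := if ‖z0‖ < 3 then kap t z0 else kap2 t z0 with hK
  have hne : ¬ ‖z0‖ < 3 → ∀ z : ℂ, ‖z‖ ≤ 2 → z ≠ z0 := by
    intro h z hz he
    rw [he] at hz
    exact h (by linarith)
  have hxz : ∀ z : ℂ, ‖x + (2 * t : ℝ) • z‖ = 2 * |t| * ‖z - z0‖ := by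
    intro z
    have e : x + (2 * t : ℝ) • z = (2 * t : ℝ) • (z - z0) := by
      rw [hz0, smul_sub, smul_smul]
      have : 2 * t * -(2 * t)⁻¹ = -1 := by field_simp
      rw [this]
      module
    rw [e, norm_smul, Real.norm_eq_abs, abs_mul, abs_of_pos (by norm_num : (0 : ℝ) < 2)]
  -- the bounds
  have hKb : ∀ z : ℂ, ‖z‖ ≤ 2 → ‖K z‖ ≤ 8 ∧ ‖x + (2 * t : ℝ) • z‖ * ‖K z‖ ≤ 1 := by
    intro z hz
    have key : ∀ y : ℝ, 0 ≤ y → (Real.pi * |t| * ‖z - z0‖) * y ≤ 1 →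
        ‖x + (2 * t : ℝ) • z‖ * y ≤ 1 := by
      intro y hy h
      rw [hxz]
      refine le_trans ?_ h
      apply mul_le_mul_of_nonneg_right _ hy
      apply mul_le_mul_of_nonneg_right _ (norm_nonneg _)
      apply mul_le_mul_of_nonneg_right _ (abs_nonneg _)
      linarith
    by_cases h : ‖z0‖ < 3
    · rw [hK, if_pos h]
      refine ⟨(kap_le t z0 z).trans ?_, key _ (norm_nonneg _) (kap_le' z0 z)⟩
      have := norm_sub_le z z0
      linarith
    · rw [hK, if_neg h]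
      exact ⟨kap2_le ht (not_lt.1 h) hz, key _ (norm_nonneg _) (kap2_le' ht (hne h z hz))⟩
  have hχs : ContDiff ℝ ((⊤ : ℕ∞) : WithTop ℕ∞) fun z : ℂ => ((χ z : ℝ) : ℂ) :=
    (Complex.ofRealCLM.contDiff).comp χ.contDiff
  have hχ0 : ∀ z : ℂ, 2 ≤ ‖z‖ → χ z = 0 := by
    intro z hz
    apply χ.zero_of_le_dist
    rw [dist_zero_right]
    exact hz
  have hχ1 : ∀ z : ℂ, ‖z‖ ≤ 3 / 2 → χ z = 1 := by
    intro z hz
    apply χ.one_of_mem_closedBall
    rw [mem_closedBall, dist_zero_right]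
    exact hz
  set c : ℂ := ch (-(t * ‖z0‖ ^ 2)) with hc
  refine ⟨fun z => c * (K z * ((χ z : ℝ) : ℂ)), ?_, ?_, ?_, ?_⟩
  · apply ContDiff.mul contDiff_const
    by_cases h : ‖z0‖ < 3
    · rw [hK, if_pos h]
      exact (kap_smooth t z0 _).mul hχs
    · rw [hK, if_neg h, contDiff_iff_contDiffAt]
      intro z
      by_cases hz : z = z0
      · have h1 : (fun z => kap2 t z0 z * ((χ z : ℝ) : ℂ)) =ᶠ[𝓝 z] fun _ => 0 := by
          have ho : IsOpen {w : ℂ | 2 < ‖w‖} := isOpen_lt continuous_const continuous_norm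
          have hm : z ∈ {w : ℂ | 2 < ‖w‖} := by
            show 2 < ‖z‖
            rw [hz]
            linarith [not_lt.1 h]
          filter_upwards [ho.mem_nhds hm] with w hw
          rw [hχ0 w (le_of_lt hw)]
          simp
        exact contDiffAt_const.congr_of_eventuallyEq h1
      · exact (kap2_smooth ht hz _).mul hχs.contDiffAt
  · apply HasCompactSupport.intro' (K := closedBall (0 : ℂ) 2) (isCompact_closedBall 0 2) isClosed_closedBall
    intro z hz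
    rw [mem_closedBall, dist_zero_right, not_le] at hz
    rw [hχ0 z hz.le]
    simp
  · intro z hz
    have h1 : HasDbar K (cexp (Ac t * ((z - z0) * conj (z - z0)))) z := by
      by_cases h : ‖z0‖ < 3
      · rw [hK, if_pos h]
        exact kap_dbar t z0 z
      · rw [hK, if_neg h]
        exact kap2_dbar ht (hne h z (by linarith))
    have h2 : HasDbar (fun z => c * (K z * ((χ z : ℝ) : ℂ)))
        (c * cexp (Ac t * ((z - z0) * conj (z - z0)))) z := by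
      apply (h1.const_mul c).congr_ev
      have ho : IsOpen {w : ℂ | ‖w‖ < 3 / 2} := isOpen_lt continuous_norm continuous_const
      filter_upwards [ho.mem_nhds hz] with w hw
      rw [hχ1 w (le_of_lt hw)]
      simp
    rw [h2.dbar_eq, hc, Ac_sq]
    unfold ch
    rw [← Complex.exp_add]
    congr 1
    have e1 : ‖z - z0‖ ^ 2 = (z.re - z0.re) ^ 2 + (z.im - z0.im) ^ 2 := by
      rw [← normSq_eq_norm_sq, normSq_apply]
      simp only [sub_re, sub_im]
      ring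
    have e2 : ‖z0‖ ^ 2 = z0.re ^ 2 + z0.im ^ 2 := by
      rw [← normSq_eq_norm_sq, normSq_apply]
      ring
    have e3 : ‖z‖ ^ 2 = z.re ^ 2 + z.im ^ 2 := by
      rw [← normSq_eq_norm_sq, normSq_apply]
      ring
    have e4 : z0.re = -(2 * t)⁻¹ * x.re := by
      rw [hz0, Complex.smul_re, smul_eq_mul]
    have e5 : z0.im = -(2 * t)⁻¹ * x.im := by
      rw [hz0, Complex.smul_im, smul_eq_mul]
    have e6 : t * ‖z - z0‖ ^ 2 - t * ‖z0‖ ^ 2 = z.re * x.re + z.im * x.im + ‖z‖ ^ 2 * t := by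
      rw [e1, e2, e3, e4, e5]
      field_simp
      ring
    rw [← e6]
    push_cast
    ring
  · intro z
    by_cases hz : ‖z‖ ≤ 2
    · obtain ⟨h1, h2⟩ := hKb z hz
      have h3 : ‖c * (K z * ((χ z : ℝ) : ℂ))‖ ≤ ‖K z‖ := by
        rw [norm_mul, hc, ch_norm, one_mul, norm_mul, Complex.norm_real, Real.norm_eq_abs,
          abs_of_nonneg χ.nonneg]
        have := χ.le_one (x := z)
        have := norm_nonneg (K z)
        nlinarith
      apply bd_of (h3.trans h1)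
      exact (mul_le_mul_of_nonneg_left h3 (norm_nonneg _)).trans h2
    · simp only
      rw [hχ0 z (not_le.1 hz).le]
      simp

end Pool.Agent.Y251.HB
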