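import Mathlib
import Pool.Agent.Y251.HB.A
import Pool.Agent.Y251.CP.D9
set_option autoImplicit false

/-! # The bound for the kernel of one pair -/

namespace Pool.Agent.Y251.HB

open MeasureTheory Set Metric Complex Filter
open Pool.Agent.Y251.CP (inv_rpow_ofReal sing_lt decay_lt lint_smul t_int lint_sub)
open scoped ENNReal NNReal ComplexConjugate Topology

/-- the exponent -/
noncomputable def be (q : ℝ) : ℝ := (q - 3 / 2) / (q - 1)

lemma be_pos {q : ℝ} (hq : 2 < q) : 0 < be q := div_pos (by linarith) (by linarith)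

lemma be_lt {q : ℝ} (hq : 2 < q) : be q < 1 := by
  unfold be
  rw [div_lt_one (by linarith)]
  linarith

lemma be_mul {q : ℝ} (hq : 2 < q) : 3 / 2 + be q * (q - 1) = q := by
  unfold be
  rw [div_mul_cancel₀ _ (by linarith)]
  ring

lemma kk_meas (t : ℝ) : Measurable fun p : ℂ × ℂ => kk t p.1 p.2 := by
  unfold kk
  fun_prop

lemma kk_meas1 (t : ℝ) (z : ℂ) : Measurable fun x : ℂ => kk t x z := by
  unfold kk
  fun_prop

lemma kk_meas2 (t : ℝ) (x : ℂ) : Measurable fun z : ℂ => kk t x z := by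
  unfold kk
  fun_prop

/-- the radial majorant -/
noncomputable def hh (x : ℂ) : ℝ≥0∞ := if ‖x‖ ≤ 8 then 8 else ENNReal.ofReal (2 / ‖x‖)

lemma hh_meas : Measurable hh := by
  unfold hh
  apply Measurable.ite (measurableSet_le measurable_norm measurable_const) measurable_const
  fun_prop

lemma hh_int {q : ℝ} (hq : 2 < q) : ∃ C : ℝ≥0, ∫⁻ x : ℂ, hh x ^ q ≤ C := by
  obtain ⟨C, hC⟩ := decay_lt hq
  have hv : volume (closedBall (0 : ℂ) 8) < ∞ := measure_closedBall_lt_top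
  have h8 : (8 : ℝ≥0∞) ^ q * volume (closedBall (0 : ℂ) 8) < ∞ :=
    ENNReal.mul_lt_top (ENNReal.rpow_lt_top_of_nonneg (by linarith) (by norm_num)) hv
  have h9 : ENNReal.ofReal (2 ^ q) * C < ∞ := ENNReal.mul_lt_top ENNReal.ofReal_lt_top ENNReal.coe_lt_top
  refine ⟨((8 : ℝ≥0∞) ^ q * volume (closedBall (0 : ℂ) 8) + ENNReal.ofReal (2 ^ q) * C).toNNReal, ?_⟩
  rw [ENNReal.coe_toNNReal (ENNReal.add_lt_top.2 ⟨h8, h9⟩).ne]
  calc ∫⁻ x : ℂ, hh x ^ q ≤ ∫⁻ x : ℂ, ((closedBall (0 : ℂ) 8).indicator (fun _ => (8 : ℝ≥0∞) ^ q) x +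
        ENNReal.ofReal (2 ^ q) *
          {z : ℂ | 1 ≤ ‖z‖}.indicator (fun z => ENNReal.ofReal (‖z‖ ^ (-q))) x) := by
        apply lintegral_mono
        intro x
        simp only
        by_cases h : ‖x‖ ≤ 8
        · unfold hh
          rw [if_pos h, indicator_of_mem (by simpa using h)]
          exact le_self_add
        · unfold hh
          rw [if_neg h]
          have hp : 0 < ‖x‖ := by linarith [not_le.1 h]
          refine le_trans (le_of_eq ?_) (le_add_self)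
          rw [indicator_of_mem (by show 1 ≤ ‖x‖; linarith [not_le.1 h]),
            ENNReal.ofReal_rpow_of_pos (by positivity), ← ENNReal.ofReal_mul (by positivity),
            Real.div_rpow (by norm_num) hp.le, Real.rpow_neg hp.le, div_eq_mul_inv]
    _ = (8 : ℝ≥0∞) ^ q * volume (closedBall (0 : ℂ) 8) + ENNReal.ofReal (2 ^ q) *
          ∫⁻ x : ℂ, {z : ℂ | 1 ≤ ‖z‖}.indicator (fun z => ENNReal.ofReal (‖z‖ ^ (-q))) x := by
        rw [lintegral_add_left (measurable_const.indicator measurableSet_closedBall),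
          lintegral_indicator_const measurableSet_closedBall, lintegral_const_mul' _ _ ENNReal.ofReal_ne_top]
    _ ≤ _ := by gcongr

/-- the size of the kernel as a function of time -/
noncomputable def Bt (q t : ℝ) : ℝ≥0∞ := if |t| ≤ 1 then 1 else ENNReal.ofReal (|t| ^ (2 - q))

lemma Bt_meas (q : ℝ) : Measurable (Bt q) := by
  unfold Bt
  apply Measurable.ite (measurableSet_le (by fun_prop) measurable_const) measurable_const
  fun_prop

lemma Bt_int {q p : ℝ} (hp : 0 < p) (hqp : 1 < (q - 2) * p) : ∃ C : ℝ≥0, ∫⁻ t : ℝ, Bt q t ^ p ≤ C := by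
  obtain ⟨C, hC⟩ := t_int (q := 2 + (q - 2) * p) (by linarith)
  refine ⟨2 + C, ?_⟩
  calc ∫⁻ t : ℝ, Bt q t ^ p ≤ ∫⁻ t : ℝ, ((Icc (-1 : ℝ) 1).indicator (fun _ => (1 : ℝ≥0∞)) t +
        {t : ℝ | 1 ≤ |t|}.indicator (fun t => ENNReal.ofReal (|t| ^ (2 - (2 + (q - 2) * p)))) t) := by
        apply lintegral_mono
        intro t
        simp only
        unfold Bt
        by_cases h : |t| ≤ 1
        · rw [if_pos h, ENNReal.one_rpow, indicator_of_mem (show t ∈ Icc (-1 : ℝ) 1 from abs_le.1 h)]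
          exact le_self_add
        · rw [if_neg h]
          have ht := not_le.1 h
          refine le_trans (le_of_eq ?_) le_add_self
          rw [indicator_of_mem (by show 1 ≤ |t|; linarith), ENNReal.ofReal_rpow_of_pos (by positivity),
            ← Real.rpow_mul (abs_nonneg t)]
          congr 2
          ring
    _ = 2 + ∫⁻ t : ℝ, {t : ℝ | 1 ≤ |t|}.indicator
          (fun t => ENNReal.ofReal (|t| ^ (2 - (2 + (q - 2) * p)))) t := by
        rw [lintegral_add_left (measurable_const.indicator measurableSet_Icc),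
          lintegral_indicator_const measurableSet_Icc, Real.volume_Icc]
        norm_num
    _ ≤ _ := by
        rw [ENNReal.coe_add]
        gcongr
        norm_num

/-- the potential of a measure -/
def PotLe (q : ℝ) (A : ℝ≥0) (ν : Measure ℂ) : Prop :=
  (∀ᵐ w ∂ν, ‖w‖ ≤ 2) ∧ ∀ z : ℂ, ∫⁻ w, (‖z - w‖ₑ⁻¹) ^ be q ∂ν ≤ A

lemma PotLe.mass {q : ℝ} (hq : 2 < q) {A : ℝ≥0} {ν : Measure ℂ} (h : PotLe q A ν) :
    ν univ ≤ 2 * A := by
  have h1 : ∀ᵐ w ∂ν, (1 : ℝ≥0∞) ≤ 2 * (‖(0 : ℂ) - w‖ₑ⁻¹) ^ be q := by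
    filter_upwards [h.1] with w hw
    have hw2 : (2 : ℝ≥0∞)⁻¹ ≤ ‖(0 : ℂ) - w‖ₑ⁻¹ := by
      apply ENNReal.inv_le_inv.2
      rw [zero_sub, enorm_neg, ← ofReal_norm]
      calc ENNReal.ofReal ‖w‖ ≤ ENNReal.ofReal 2 := ENNReal.ofReal_le_ofReal hw
        _ = 2 := by norm_num
    have h2 : (2 : ℝ≥0∞)⁻¹ ≤ (‖(0 : ℂ) - w‖ₑ⁻¹) ^ be q := by
      calc (2 : ℝ≥0∞)⁻¹ = (2 : ℝ≥0∞)⁻¹ ^ (1 : ℝ) := (ENNReal.rpow_one _).symm
        _ ≤ (2 : ℝ≥0∞)⁻¹ ^ be q := by
            apply ENNReal.rpow_le_rpow_of_exponent_ge _ (be_lt hq).le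
            norm_num
        _ ≤ _ := ENNReal.rpow_le_rpow hw2 (be_pos hq).le
    calc (1 : ℝ≥0∞) = 2 * 2⁻¹ := by
          rw [ENNReal.mul_inv_cancel (by norm_num) (by norm_num)]
      _ ≤ _ := by gcongr
  calc ν univ = ∫⁻ _w, 1 ∂ν := by rw [lintegral_one]
    _ ≤ ∫⁻ w, 2 * (‖(0 : ℂ) - w‖ₑ⁻¹) ^ be q ∂ν := lintegral_mono_ae h1
    _ = 2 * ∫⁻ w, (‖(0 : ℂ) - w‖ₑ⁻¹) ^ be q ∂ν := lintegral_const_mul' _ _ (by norm_num)
    _ ≤ 2 * A := by gcongr; exact h.2 0

lemma kk_le_hh {t : ℝ} (ht : |t| ≤ 1) (x : ℂ) {w : ℂ} (hw : ‖w‖ ≤ 2) : kk t x w ≤ hh x := by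
  unfold kk hh
  by_cases h : ‖x‖ ≤ 8
  · rw [if_pos h]
    exact min_le_left _ _
  · rw [if_neg h]
    refine (min_le_right _ _).trans ?_
    have hx := not_le.1 h
    have h1 : ‖(2 * t : ℝ) • w‖ ≤ 4 := by
      rw [norm_smul, Real.norm_eq_abs, abs_mul, abs_of_pos (by norm_num : (0 : ℝ) < 2)]
      have := abs_nonneg t
      have := norm_nonneg w
      nlinarith
    have h2 : ‖x‖ / 2 ≤ ‖x + (2 * t : ℝ) • w‖ := by
      have := norm_sub_norm_le x (-((2 * t : ℝ) • w))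
      rw [norm_neg, sub_neg_eq_add] at this
      linarith
    rw [← ofReal_norm, ← ENNReal.ofReal_inv_of_pos (by linarith)]
    apply ENNReal.ofReal_le_ofReal
    rw [← inv_div]
    exact inv_anti₀ (by linarith) h2

/-- the potential factor at infinity -/
lemma far_le {x w : ℂ} (hx : 8 < ‖x‖) (hw : ‖w‖ ≤ 2) : ‖x - w‖ₑ⁻¹ ≤ hh x := by
  unfold hh
  rw [if_neg (not_le.2 hx)]
  have h2 : ‖x‖ / 2 ≤ ‖x - w‖ := by
    have := norm_sub_norm_le x w
    linarith
  rw [← ofReal_norm, ← ENNReal.ofReal_inv_of_pos (by linarith)]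
  apply ENNReal.ofReal_le_ofReal
  rw [← inv_div]
  exact inv_anti₀ (by linarith) h2

lemma comb {q : ℝ} (hq : 2 < q) (a V : ℝ≥0∞) :
    a ^ (3 / 2 : ℝ) * (a ^ be q * V) ^ (q - 1) = V ^ (q - 1) * a ^ q := by
  have hq1 : 0 ≤ q - 1 := by linarith
  rw [ENNReal.mul_rpow_of_nonneg _ _ hq1, ← ENNReal.rpow_mul, ← mul_assoc,
    ← ENNReal.rpow_add_of_nonneg _ _ (by norm_num) (mul_nonneg (be_pos hq).le hq1), be_mul hq, mul_comm]

/-- the bound for one pair at a fixed time -/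
theorem Jb {q : ℝ} (hq : 2 < q) (A : ℝ≥0) : ∃ C : ℝ≥0, ∀ ν : Measure ℂ, IsFiniteMeasure ν →
    PotLe q A ν → ∀ (t : ℝ) (ζ : ℂ), ‖ζ‖ ≤ 2 →
    ∫⁻ x : ℂ, kk t x ζ ^ (3 / 2 : ℝ) * (∫⁻ w, kk t x w ^ be q ∂ν) ^ (q - 1) ≤ C * Bt q t := by
  obtain ⟨C1, hC1⟩ := hh_int hq
  have hq1 : 0 ≤ q - 1 := by linarith
  have hb0 := (be_pos hq).le
  set S : ℝ≥0∞ := ∫⁻ x in ball (0 : ℂ) 11, (‖x‖ₑ⁻¹) ^ (3 / 2 : ℝ) with hS
  have hSf : S < ∞ := sing_lt volume (by rw [Complex.finrank_real_complex]; norm_num)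
    (by rw [Complex.finrank_real_complex]; norm_num) 11
  set D : ℝ≥0∞ := (A : ℝ≥0∞) ^ (q - 1) * S + (2 * A : ℝ≥0∞) ^ (q - 1) * C1 with hD
  have hDf : D < ∞ := by
    rw [hD]
    refine ENNReal.add_lt_top.2 ⟨ENNReal.mul_lt_top ?_ hSf, ENNReal.mul_lt_top ?_ ENNReal.coe_lt_top⟩
    · exact ENNReal.rpow_lt_top_of_nonneg hq1 ENNReal.coe_ne_top
    · exact ENNReal.rpow_lt_top_of_nonneg hq1 (ENNReal.mul_ne_top (by norm_num) ENNReal.coe_ne_top)
  refine ⟨D.toNNReal, ?_⟩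
  intro ν _ hν t ζ hζ
  rw [ENNReal.coe_toNNReal hDf.ne]
  have hmass := hν.mass hq
  unfold Bt
  by_cases ht : |t| ≤ 1
  · rw [if_pos ht, mul_one]
    calc ∫⁻ x : ℂ, kk t x ζ ^ (3 / 2 : ℝ) * (∫⁻ w, kk t x w ^ be q ∂ν) ^ (q - 1)
        ≤ ∫⁻ x : ℂ, (2 * A : ℝ≥0∞) ^ (q - 1) * hh x ^ q := by
          apply lintegral_mono
          intro x
          simp only
          rw [← comb hq]
          gcongr
          · exact kk_le_hh ht x hζ
          · calc ∫⁻ w, kk t x w ^ be q ∂ν ≤ ∫⁻ _w, hh x ^ be q ∂ν := by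
                  apply lintegral_mono_ae
                  filter_upwards [hν.1] with w hw
                  exact ENNReal.rpow_le_rpow (kk_le_hh ht x hw) hb0
              _ = hh x ^ be q * ν univ := lintegral_const _
              _ ≤ hh x ^ be q * (2 * A) := by gcongr
      _ = (2 * A : ℝ≥0∞) ^ (q - 1) * ∫⁻ x : ℂ, hh x ^ q :=
          lintegral_const_mul _ (hh_meas.pow_const _)
      _ ≤ (2 * A : ℝ≥0∞) ^ (q - 1) * C1 := by gcongr
      _ ≤ D := le_add_self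
  · rw [if_neg ht]
    have ht1 := not_le.1 ht
    have ht0 : t ≠ 0 := by
      intro h
      rw [h] at ht1
      norm_num at ht1
    have h2t : (-(2 * t)) ≠ 0 := by
      simpa using ht0
    set F : ℂ → ℝ≥0∞ := fun x => (‖x + (2 * t : ℝ) • ζ‖ₑ⁻¹) ^ (3 / 2 : ℝ) *
      (∫⁻ w, (‖x + (2 * t : ℝ) • w‖ₑ⁻¹) ^ be q ∂ν) ^ (q - 1) with hF
    have hFm : Measurable F := by
      have h1 : Measurable (Function.uncurry fun (x w : ℂ) => (‖x + (2 * t : ℝ) • w‖ₑ⁻¹) ^ be q) := by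
        fun_prop
      have h2 : Measurable fun x : ℂ => ∫⁻ w, (‖x + (2 * t : ℝ) • w‖ₑ⁻¹) ^ be q ∂ν :=
        h1.lintegral_prod_right'
      exact (by fun_prop : Measurable fun x : ℂ => (‖x + (2 * t : ℝ) • ζ‖ₑ⁻¹) ^ (3 / 2 : ℝ)).mul
        (h2.pow_const _)
    set c2 : ℝ≥0∞ := ENNReal.ofReal ((2 * |t|)⁻¹) with hc2
    have hsc : ∀ z w : ℂ, ‖(-(2 * t) : ℝ) • z + (2 * t : ℝ) • w‖ₑ⁻¹ = c2 * ‖z - w‖ₑ⁻¹ := by
      intro z w
      have e : (-(2 * t) : ℝ) • z + (2 * t : ℝ) • w = (-(2 * t) : ℝ) • (z - w) := by module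
      rw [e, enorm_smul, ENNReal.mul_inv (Or.inl (by simpa using ht0)) (Or.inl enorm_ne_top), hc2,
        ENNReal.ofReal_inv_of_pos (by positivity), ← ofReal_norm (-(2 * t)), Real.norm_eq_abs, abs_neg,
        abs_mul, abs_of_pos (by norm_num : (0 : ℝ) < 2)]
    have hFle : ∀ z : ℂ, F ((-(2 * t) : ℝ) • z) ≤ c2 ^ q *
        ((ball ζ 11).indicator (fun z => (A : ℝ≥0∞) ^ (q - 1) * (‖z - ζ‖ₑ⁻¹) ^ (3 / 2 : ℝ)) z +
          (2 * A : ℝ≥0∞) ^ (q - 1) * hh z ^ q) := by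
      intro z
      have e1 : F ((-(2 * t) : ℝ) • z) = c2 ^ q * ((‖z - ζ‖ₑ⁻¹) ^ (3 / 2 : ℝ) *
          (∫⁻ w, (‖z - w‖ₑ⁻¹) ^ be q ∂ν) ^ (q - 1)) := by
        simp only [hF, hsc]
        simp only [ENNReal.mul_rpow_of_nonneg _ _ (by norm_num : (0 : ℝ) ≤ 3 / 2),
          ENNReal.mul_rpow_of_nonneg _ _ hb0]
        rw [lintegral_const_mul' _ _ (ENNReal.rpow_ne_top_of_nonneg hb0 ENNReal.ofReal_ne_top)]
        have h3 := comb hq c2 (∫⁻ w, (‖z - w‖ₑ⁻¹) ^ be q ∂ν)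
        rw [mul_right_comm, h3]
        ring
      rw [e1]
      gcongr
      by_cases hz : ‖z‖ ≤ 8
      · rw [indicator_of_mem (by
          rw [mem_ball, dist_eq_norm]
          have := norm_sub_le z ζ
          linarith)]
        refine le_trans ?_ le_self_add
        rw [mul_comm]
        gcongr
        exact hν.2 z
      · refine le_trans ?_ le_add_self
        rw [← comb hq]
        have hz' := not_le.1 hz
        gcongr
        · exact far_le hz' hζ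
        · calc ∫⁻ w, (‖z - w‖ₑ⁻¹) ^ be q ∂ν ≤ ∫⁻ _w, hh z ^ be q ∂ν := by
                apply lintegral_mono_ae
                filter_upwards [hν.1] with w hw
                exact ENNReal.rpow_le_rpow (far_le hz' hw) hb0
            _ = hh z ^ be q * ν univ := lintegral_const _
            _ ≤ hh z ^ be q * (2 * A) := by gcongr
    have hball : ∫⁻ z : ℂ, (ball ζ 11).indicator
        (fun z => (A : ℝ≥0∞) ^ (q - 1) * (‖z - ζ‖ₑ⁻¹) ^ (3 / 2 : ℝ)) z ≤ (A : ℝ≥0∞) ^ (q - 1) * S := by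
      have h1 := lint_sub (fun v => (ball (0 : ℂ) 11).indicator
        (fun v => (A : ℝ≥0∞) ^ (q - 1) * (‖v‖ₑ⁻¹) ^ (3 / 2 : ℝ)) v) ζ
      calc _ ≤ ∫⁻ z : ℂ, (ball (0 : ℂ) 11).indicator
            (fun v => (A : ℝ≥0∞) ^ (q - 1) * (‖v‖ₑ⁻¹) ^ (3 / 2 : ℝ)) (z - ζ) := by
            apply lintegral_mono
            intro z
            simp only
            by_cases hz : z ∈ ball ζ 11
            · rw [indicator_of_mem hz, indicator_of_mem (by
                rw [mem_ball, dist_zero_right]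
                rw [mem_ball, dist_eq_norm] at hz
                linarith)]
            · rw [indicator_of_notMem hz]
              exact zero_le
        _ = _ := h1
        _ = (A : ℝ≥0∞) ^ (q - 1) * S := by
            rw [lintegral_indicator measurableSet_ball, lintegral_const_mul _ (by fun_prop)]
    calc ∫⁻ x : ℂ, kk t x ζ ^ (3 / 2 : ℝ) * (∫⁻ w, kk t x w ^ be q ∂ν) ^ (q - 1)
        ≤ ∫⁻ x : ℂ, F x := by
          apply lintegral_mono
          intro x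
          simp only [hF]
          gcongr
          · exact min_le_right _ _
          · exact min_le_right _ _
      _ = ENNReal.ofReal ((2 * t) ^ 2) * ∫⁻ z : ℂ, F ((-(2 * t) : ℝ) • z) := by
          rw [lint_smul F hFm h2t, ← mul_assoc, ← ENNReal.ofReal_mul (by positivity)]
          have : (2 * t) ^ 2 * ((-(2 * t)) ^ 2)⁻¹ = 1 := by field_simp
          rw [this, ENNReal.ofReal_one, one_mul]
      _ ≤ ENNReal.ofReal ((2 * t) ^ 2) * ∫⁻ z : ℂ, c2 ^ q *
        ((ball ζ 11).indicator (fun z => (A : ℝ≥0∞) ^ (q - 1) * (‖z - ζ‖ₑ⁻¹) ^ (3 / 2 : ℝ)) z +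
          (2 * A : ℝ≥0∞) ^ (q - 1) * hh z ^ q) := by
          gcongr with z
          exact hFle z
      _ = ENNReal.ofReal ((2 * t) ^ 2) * (c2 ^ q *
          ((∫⁻ z : ℂ, (ball ζ 11).indicator
            (fun z => (A : ℝ≥0∞) ^ (q - 1) * (‖z - ζ‖ₑ⁻¹) ^ (3 / 2 : ℝ)) z) +
          (2 * A : ℝ≥0∞) ^ (q - 1) * ∫⁻ z : ℂ, hh z ^ q)) := by
          rw [lintegral_const_mul' _ _ (ENNReal.rpow_ne_top_of_nonneg (by linarith) ENNReal.ofReal_ne_top),
            lintegral_add_right _ ((hh_meas.pow_const _).const_mul _),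
            lintegral_const_mul _ (hh_meas.pow_const _)]
      _ ≤ ENNReal.ofReal ((2 * t) ^ 2) * (c2 ^ q * D) := by
          rw [hD]
          gcongr
      _ = (ENNReal.ofReal ((2 * t) ^ 2) * c2 ^ q) * D := by ring
      _ ≤ ENNReal.ofReal (|t| ^ (2 - q)) * D := by
          gcongr
          rw [hc2, ENNReal.ofReal_rpow_of_pos (by positivity), ← ENNReal.ofReal_mul (by positivity)]
          apply ENNReal.ofReal_le_ofReal
          have h1 : (2 * t) ^ 2 = (2 * |t|) ^ (2 : ℝ) := by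
            rw [← sq_abs (2 * t), abs_mul, abs_of_pos (by norm_num : (0 : ℝ) < 2)]
            norm_cast
          rw [h1, Real.inv_rpow (by positivity), ← Real.rpow_neg (by positivity),
            ← Real.rpow_add (by positivity), ← sub_eq_add_neg]
          apply Real.rpow_le_rpow_of_nonpos (by positivity) _ (by linarith)
          linarith
      _ = _ := mul_comm _ _

end Pool.Agent.Y251.HB
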