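import Mathlib
import Pool.Agent.Y251.HB.B
set_option autoImplicit false

/-! # Products of kernels -/

namespace Pool.Agent.Y251.HB

open MeasureTheory Set Metric Complex Filter
open scoped ENNReal NNReal ComplexConjugate Topology

lemma lint_pi_gen {α : Type*} [MeasurableSpace α] {n : ℕ} (μ : Fin n → Measure α)
    [∀ i, SigmaFinite (μ i)] (f : Fin n → α → ℝ≥0∞) (hf : ∀ i, Measurable (f i)) :
    ∫⁻ x, ∏ i, f i (x i) ∂(Measure.pi μ) = ∏ i, ∫⁻ u, f i u ∂(μ i) := by
  induction n with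
  | zero =>
    simp
  | succ n ih =>
    have h1 := (measurePreserving_piFinSuccAbove μ 0).symm
    rw [← h1.lintegral_comp_emb (MeasurableEquiv.measurableEmbedding _)]
    have h2 : ∀ p : α × (Fin n → α), ∏ i, f i ((MeasurableEquiv.piFinSuccAbove
        (fun _ : Fin (n + 1) => α) 0).symm p i) = f 0 p.1 * ∏ i, f (Fin.succ i) (p.2 i) := by
      intro p
      rw [Fin.prod_univ_succ]
      simp [MeasurableEquiv.piFinSuccAbove_symm_apply, Fin.insertNthEquiv]
    simp only [h2]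
    have hm : Measurable fun r : Fin n → α => ∏ i, f (Fin.succ i) (r i) :=
      Finset.measurable_prod _ fun i _ => (hf _).comp (measurable_pi_apply i)
    rw [lintegral_prod_mul (hf 0).aemeasurable hm.aemeasurable, Fin.prod_univ_succ]
    congr 1
    have := ih (fun j => μ (Fin.succ j)) (fun j => f (Fin.succ j)) fun i => hf _
    simpa using this

/-- products of kernels -/
theorem tens {q : ℝ} (hq : 2 < q) {m : ℕ} (ν : Fin m → Measure ℂ) [∀ j, IsFiniteMeasure (ν j)]
    (k : Fin m → ℂ → ℂ → ℝ≥0∞) (hk : ∀ j, Measurable (Function.uncurry (k j))) (B : Fin m → ℝ≥0∞)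
    (hB : ∀ j, ∀ᵐ ζ ∂(ν j),
      ∫⁻ x : ℂ, k j x ζ ^ (3 / 2 : ℝ) * (∫⁻ w, k j x w ^ be q ∂(ν j)) ^ (q - 1) ≤ B j)
    (H : (Fin m → ℂ) → ℝ≥0∞) (hH : Measurable H) :
    ∫⁻ x : Fin m → ℂ, (∫⁻ ζ, H ζ * ∏ j, k j (x j) (ζ j) ∂(Measure.pi ν)) ^ q ≤
      (∏ j, B j) * ∫⁻ ζ, H ζ ^ q ∂(Measure.pi ν) := by
  have hq1 : 0 ≤ q - 1 := by linarith
  have hb0 := (be_pos hq).le
  have hk1 : ∀ j (x : ℂ), Measurable (k j x) := fun j x => (hk j).of_uncurry_left
  have hk2 : ∀ j (w : ℂ), Measurable fun x => k j x w := fun j w => (hk j).of_uncurry_right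
  set W : Fin m → ℂ → ℝ≥0∞ := fun j x => (∫⁻ w, k j x w ^ be q ∂(ν j)) ^ (q - 1) with hW
  have hWm : ∀ j, Measurable (W j) := by
    intro j
    have h1 : Measurable (Function.uncurry fun x w => k j x w ^ be q) := (hk j).pow_const _
    exact h1.lintegral_prod_right'.pow_const _
  have hKm : Measurable fun p : (Fin m → ℂ) × (Fin m → ℂ) =>
      ∏ j, (k j (p.1 j) (p.2 j) ^ (3 / 2 : ℝ) * W j (p.1 j)) := by
    apply Finset.measurable_prod
    intro j _
    have h1 : Measurable fun p : (Fin m → ℂ) × (Fin m → ℂ) => (p.1 j, p.2 j) := by fun_prop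
    exact (((hk j).comp h1).pow_const _).mul ((hWm j).comp (by fun_prop))
  calc ∫⁻ x : Fin m → ℂ, (∫⁻ ζ, H ζ * ∏ j, k j (x j) (ζ j) ∂(Measure.pi ν)) ^ q
      ≤ ∫⁻ x : Fin m → ℂ, ∫⁻ ζ, H ζ ^ q * ∏ j, (k j (x j) (ζ j) ^ (3 / 2 : ℝ) * W j (x j))
          ∂(Measure.pi ν) := by
        apply lintegral_mono
        intro x
        simp only
        have hpm : Measurable fun ζ : Fin m → ℂ => ∏ j, k j (x j) (ζ j) :=
          Finset.measurable_prod _ fun j _ => (hk1 j _).comp (measurable_pi_apply j)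
        refine (CP.split32 (Measure.pi ν) (by linarith) hH.aemeasurable hpm.aemeasurable).trans
          (le_of_eq ?_)
        have e1 : ∫⁻ ζ : Fin m → ℂ, (∏ j, k j (x j) (ζ j)) ^ ((q - 3 / 2) / (q - 1))
            ∂(Measure.pi ν) = ∏ j, ∫⁻ w, k j (x j) w ^ be q ∂(ν j) := by
          have e2 : ∀ ζ : Fin m → ℂ, (∏ j, k j (x j) (ζ j)) ^ ((q - 3 / 2) / (q - 1)) =
              ∏ j, k j (x j) (ζ j) ^ be q := fun ζ => (ENNReal.prod_rpow_of_nonneg hb0).symm
          simp only [e2]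
          exact lint_pi_gen ν (fun j w => k j (x j) w ^ be q) fun j => (hk1 j _).pow_const _
        rw [e1, ← ENNReal.prod_rpow_of_nonneg hq1]
        have e3 : (∏ j, (∫⁻ w, k j (x j) w ^ be q ∂(ν j)) ^ (q - 1)) = ∏ j, W j (x j) := rfl
        have hm : Measurable fun ζ : Fin m → ℂ => H ζ ^ q *
            (∏ j, k j (x j) (ζ j)) ^ (3 / 2 : ℝ) := (hH.pow_const _).mul (hpm.pow_const _)
        rw [e3, ← lintegral_mul_const _ hm]
        apply lintegral_congr
        intro ζ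
        rw [Finset.prod_mul_distrib, ← ENNReal.prod_rpow_of_nonneg (by norm_num : (0 : ℝ) ≤ 3 / 2)]
        ring
    _ = ∫⁻ ζ, (∫⁻ x : Fin m → ℂ, H ζ ^ q * ∏ j, (k j (x j) (ζ j) ^ (3 / 2 : ℝ) * W j (x j)))
          ∂(Measure.pi ν) := by
        apply lintegral_lintegral_swap
        apply Measurable.aemeasurable
        exact ((hH.comp measurable_snd).pow_const _).mul hKm
    _ = ∫⁻ ζ, (H ζ ^ q * ∏ j, ∫⁻ x : ℂ, k j x (ζ j) ^ (3 / 2 : ℝ) * W j x) ∂(Measure.pi ν) := by
        apply lintegral_congr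
        intro ζ
        rw [lintegral_const_mul]
        · congr 1
          rw [volume_pi]
          exact lint_pi_gen (fun _ : Fin m => (volume : Measure ℂ))
            (fun j x => k j x (ζ j) ^ (3 / 2 : ℝ) * W j x)
            fun j => ((hk2 j _).pow_const _).mul (hWm j)
        · exact hKm.comp (by fun_prop : Measurable fun x : Fin m → ℂ => (x, ζ))
    _ ≤ ∫⁻ ζ, (H ζ ^ q * ∏ j, B j) ∂(Measure.pi ν) := by
        apply lintegral_mono_ae
        have h1 : ∀ᵐ ζ ∂(Measure.pi ν), ∀ j,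
            ∫⁻ x : ℂ, k j x (ζ j) ^ (3 / 2 : ℝ) * W j x ≤ B j := by
          rw [ae_all_iff]
          intro j
          exact (Measure.quasiMeasurePreserving_eval ν j).ae (hB j)
        filter_upwards [h1] with ζ hζ
        gcongr with j _
        exact hζ j
    _ = _ := by
        rw [lintegral_mul_const _ (hH.pow_const _), mul_comm]

end Pool.Agent.Y251.HB
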