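import Mathlib
import Pool.Agent.Y251.HB.C
import Pool.Agent.TH277.CB.C
set_option autoImplicit false
set_option linter.unusedSectionVars false

/-! # The extension operator on functions with a mixed one-sided derivative: the pointwise bound -/

namespace Pool.Agent.Y251.HB

open MeasureTheory Set Metric Complex Filter
open Pool.Agent.Y251.CP (dbar)
open Pool.Agent.TH277.HT (ch ch_norm ch_enorm ch_cont ch_add ch_sum EE EE_meas Adm E1 E1_meas E1t_meas tr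
  tr_meas E1_eq tuple_meas EE_mult mix)
open Pool.Agent.TH277.CB (Phi Phi_mp sum_blk sch_time)
open scoped ENNReal NNReal ComplexConjugate Topology

variable {m₁ m₂ n : ℕ}

/-- the coordinates grouped into single coordinates and pairs, the pairs being complex numbers -/
def Psi (e : Fin m₁ ⊕ (Fin m₂ ⊕ Fin m₂) ≃ Fin n) (ξ : Fin n → ℝ) :
    (Fin m₁ → ℝ) × (Fin m₂ → ℂ) :=
  (fun i => ξ (e (Sum.inl i)), fun j => ⟨ξ (e (Sum.inr (Sum.inl j))), ξ (e (Sum.inr (Sum.inr j)))⟩)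

lemma Psi_mp (e : Fin m₁ ⊕ (Fin m₂ ⊕ Fin m₂) ≃ Fin n) : MeasurePreserving (Psi e) := by
  have h1 := Phi_mp e
  have h2 : MeasurePreserving (fun (a : Fin m₂ → ℝ × ℝ) (j : Fin m₂) =>
      Complex.measurableEquivRealProd.symm (a j)) :=
    volume_preserving_pi fun _ => Complex.volume_preserving_equiv_real_prod.symm
  have h3 := ((MeasurePreserving.id (volume : Measure (Fin m₁ → ℝ))).prod h2).comp h1
  exact h3

/-- the character of one pair -/
noncomputable def pc (x : ℂ) (t : ℝ) (z : ℂ) : ℂ := ch (z.re * x.re + z.im * x.im + ‖z‖ ^ 2 * t)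

lemma pc_cont (x : ℂ) (t : ℝ) : Continuous (pc x t) := by
  unfold pc
  exact ch_cont.comp (by fun_prop)

lemma pc_norm (x : ℂ) (t : ℝ) (z : ℂ) : ‖pc x t z‖ = 1 := ch_norm _

/-- the chirps -/
noncomputable def chirp (τ : Fin m₂ → ℝ) (z : Fin m₂ → ℂ) : ℂ :=
  ∏ j, cexp ((τ j * ‖z j‖ ^ 2 : ℝ) * I)

lemma chirp_cont (τ : Fin m₂ → ℝ) : Continuous (chirp τ) := by
  unfold chirp
  fun_prop

lemma chirp_norm (τ : Fin m₂ → ℝ) (z : Fin m₂ → ℂ) : ‖chirp τ z‖ = 1 := by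
  unfold chirp
  rw [norm_prod]
  exact Finset.prod_eq_one fun j _ => norm_exp_ofReal_mul_I _

/-- the shifted times -/
noncomputable def tm (τ : Fin m₂ → ℝ) (t : ℝ) (j : Fin m₂) : ℝ := t + τ j / (2 * Real.pi)

/-- the character of the single coordinates, on the cube -/
noncomputable def Ay (Y : Fin m₁ → ℝ) (t : ℝ) : (Fin m₁ → ℝ) → ℂ :=
  (Icc (-1 : Fin m₁ → ℝ) 1).indicator fun y => ch (∑ i, y i * Y i + (∑ i, y i ^ 2) * t)

lemma Ay_meas (Y : Fin m₁ → ℝ) (t : ℝ) : Measurable (Ay Y t) := by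
  apply Measurable.indicator _ measurableSet_Icc
  exact (ch_cont.comp (by fun_prop : Continuous fun y : Fin m₁ → ℝ =>
    (∑ i, y i * Y i + (∑ i, y i ^ 2) * t))).measurable

lemma Ay_norm (Y : Fin m₁ → ℝ) (t : ℝ) (y : Fin m₁ → ℝ) : ‖Ay Y t y‖ ≤ 1 := by
  unfold Ay
  by_cases h : y ∈ Icc (-1 : Fin m₁ → ℝ) 1
  · rw [indicator_of_mem h, ch_norm]
  · rw [indicator_of_notMem h, norm_zero]
    exact zero_le_one

/-- the square as a set of complex numbers -/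
def Qc : Set ℂ := {z | |z.re| ≤ 1 ∧ |z.im| ≤ 1}

lemma Qc_norm {z : ℂ} (hz : z ∈ Qc) : ‖z‖ < 3 / 2 := by
  have h1 : ‖z‖ ^ 2 ≤ 2 := by
    rw [← normSq_eq_norm_sq, normSq_apply]
    have h2 := sq_abs z.re
    have h3 := sq_abs z.im
    have h4 := hz.1
    have h5 := hz.2
    have h6 := abs_nonneg z.re
    have h7 := abs_nonneg z.im
    nlinarith
  nlinarith [norm_nonneg z]

/-- the extension operator in the grouped coordinates -/
lemma EE_Psi (e : Fin m₁ ⊕ (Fin m₂ ⊕ Fin m₂) ≃ Fin n) (τ : Fin m₂ → ℝ)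
    {g : (Fin m₁ → ℝ) × (Fin m₂ → ℂ) → ℂ} (hg : Measurable g)
    (h0 : ∀ p, (∃ j, p.2 j ∉ Qc) → g p = 0) (x : Fin n → ℝ) (t : ℝ) :
    EE (fun ξ => chirp τ (Psi e ξ).2 * g (Psi e ξ)) (x, t) =
      ∫ p : (Fin m₁ → ℝ) × (Fin m₂ → ℂ), Ay (Psi e x).1 t p.1 *
        ((∏ j, pc ((Psi e x).2 j) (tm τ t j) (p.2 j)) * g p) := by
  set F : (Fin m₁ → ℝ) × (Fin m₂ → ℂ) → ℂ := fun p => Ay (Psi e x).1 t p.1 *
        ((∏ j, pc ((Psi e x).2 j) (tm τ t j) (p.2 j)) * g p) with hF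
  have hFm : Measurable F := by
    apply ((Ay_meas _ t).comp measurable_fst).mul
    apply Measurable.mul _ hg
    apply Finset.measurable_prod
    intro j _
    exact (pc_cont _ _).measurable.comp (by fun_prop)
  have h1 : EE (fun ξ => chirp τ (Psi e ξ).2 * g (Psi e ξ)) (x, t) = ∫ ξ : Fin n → ℝ, F (Psi e ξ) := by
    unfold EE
    rw [← integral_indicator measurableSet_Icc]
    apply integral_congr_ae
    refine ae_of_all _ fun ξ => ?_
    simp only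
    by_cases hξ : ξ ∈ Icc (-1 : Fin n → ℝ) 1
    · rw [indicator_of_mem hξ]
      simp only [hF]
      have hy : (Psi e ξ).1 ∈ Icc (-1 : Fin m₁ → ℝ) 1 :=
        ⟨fun i => hξ.1 _, fun i => hξ.2 _⟩
      unfold Ay
      rw [indicator_of_mem hy]
      have h3 : ch (∑ j, ξ j * x j + (∑ j, ξ j ^ 2) * t) * chirp τ (Psi e ξ).2 =
          ch (∑ i, (Psi e ξ).1 i * (Psi e x).1 i + (∑ i, (Psi e ξ).1 i ^ 2) * t) *
            ∏ j, pc ((Psi e x).2 j) (tm τ t j) ((Psi e ξ).2 j) := by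
        have h4 : ∀ j, pc ((Psi e x).2 j) (tm τ t j) ((Psi e ξ).2 j) =
            ch (ξ (e (Sum.inr (Sum.inl j))) * x (e (Sum.inr (Sum.inl j))) +
              ξ (e (Sum.inr (Sum.inr j))) * x (e (Sum.inr (Sum.inr j))) +
              (ξ (e (Sum.inr (Sum.inl j))) ^ 2 + ξ (e (Sum.inr (Sum.inr j))) ^ 2) * t) *
              cexp ((τ j * ‖(Psi e ξ).2 j‖ ^ 2 : ℝ) * I) := by
          intro j
          unfold pc ch tm
          rw [← Complex.exp_add]
          congr 1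
          have h5 : ‖(Psi e ξ).2 j‖ ^ 2 =
              ξ (e (Sum.inr (Sum.inl j))) ^ 2 + ξ (e (Sum.inr (Sum.inr j))) ^ 2 := by
            rw [← normSq_eq_norm_sq, normSq_apply]
            simp only [Psi]
            ring
          rw [h5]
          simp only [Psi]
          have hpi : (Real.pi : ℂ) ≠ 0 := by exact_mod_cast Real.pi_ne_zero
          push_cast
          field_simp
          ring
        simp only [h4]
        unfold chirp
        rw [Finset.prod_mul_distrib, ← mul_assoc]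
        congr 1
        rw [← ch_sum, ← ch_add]
        congr 1
        rw [sum_blk e, sum_blk e, add_mul, Finset.sum_mul Finset.univ
          (fun j => ξ (e (Sum.inr (Sum.inl j))) ^ 2 + ξ (e (Sum.inr (Sum.inr j))) ^ 2) t]
        rw [Finset.sum_add_distrib (s := (Finset.univ : Finset (Fin m₂)))
          (f := fun j => ξ (e (Sum.inr (Sum.inl j))) * x (e (Sum.inr (Sum.inl j))) +
              ξ (e (Sum.inr (Sum.inr j))) * x (e (Sum.inr (Sum.inr j))))]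
        simp only [Psi]
        ring
      rw [← mul_assoc, h3, mul_assoc]
    · rw [indicator_of_notMem hξ]
      simp only [hF]
      by_cases h3 : (Psi e ξ).1 ∈ Icc (-1 : Fin m₁ → ℝ) 1
      · have h4 : ∃ j, (Psi e ξ).2 j ∉ Qc := by
          by_contra hc
          push Not at hc
          apply hξ
          have h5 : ∀ k, -1 ≤ ξ k ∧ ξ k ≤ 1 := by
            intro k
            obtain ⟨k', rfl⟩ := e.surjective k
            rcases k' with i | j | j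
            · exact ⟨h3.1 i, h3.2 i⟩
            · exact abs_le.1 (hc j).1
            · exact abs_le.1 (hc j).2
          exact ⟨fun k => (h5 k).1, fun k => (h5 k).2⟩
        rw [h0 _ h4, mul_zero, mul_zero]
      · unfold Ay
        rw [indicator_of_notMem h3, zero_mul]
  have h2 : ∫ ξ : Fin n → ℝ, F (Psi e ξ) = ∫ z, F z := by
    have h3 := (Psi_mp e).map_eq
    rw [← h3, integral_map (Psi_mp e).measurable.aemeasurable hFm.aestronglyMeasurable]
  rw [h1, h2]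

/-- the mixed derivative `∂/∂z̄_1 … ∂/∂z̄_m` of `G` is the measure `b dν_1 ⊗ … ⊗ dν_m`, tested on
products -/
def MixedDbar {m : ℕ} (ν : Fin m → Measure ℂ) (G b : (Fin m → ℂ) → ℂ) : Prop :=
  ∀ φ : Fin m → ℂ → ℂ, (∀ j, ContDiff ℝ ((⊤ : ℕ∞) : WithTop ℕ∞) (φ j)) →
    (∀ j, HasCompactSupport (φ j)) →
    ∫ z, G z * ∏ j, dbar (φ j) (z j) = (-1) ^ m * ∫ z, (∏ j, φ j (z j)) * b z ∂(Measure.pi ν)

variable {H : Type} [NormedAddCommGroup H] [InnerProductSpace ℂ H] [CompleteSpace H]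

/-- the function of the single coordinates for fixed values of the pairs -/
noncomputable def sM (M : ContinuousMultilinearMap ℂ (fun _ : Fin m₁ => H) ℂ)
    (a : Fin m₁ → (Fin m₂ → ℂ) × ℝ → H) (ζ : Fin m₂ → ℂ) (y : Fin m₁ → ℝ) : ℂ :=
  M (fun i => a i (ζ, y i))

lemma sM_meas (M : ContinuousMultilinearMap ℂ (fun _ : Fin m₁ => H) ℂ)
    {a : Fin m₁ → (Fin m₂ → ℂ) × ℝ → H} (ha : ∀ i, StronglyMeasurable (a i)) :
    StronglyMeasurable fun p : (Fin m₂ → ℂ) × (Fin m₁ → ℝ) => sM M a p.1 p.2 := by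
  unfold sM
  apply M.cont.comp_stronglyMeasurable
  exact tuple_meas (fun (i : Fin m₁) (p : (Fin m₂ → ℂ) × (Fin m₁ → ℝ)) => a i (p.1, p.2 i)) fun i =>
    (ha i).comp_measurable (by fun_prop)

lemma sM_le (M : ContinuousMultilinearMap ℂ (fun _ : Fin m₁ => H) ℂ) (hM : ‖M‖ ≤ 1)
    {a : Fin m₁ → (Fin m₂ → ℂ) × ℝ → H} (hb : ∀ i p, ‖a i p‖ ≤ 1) (ζ : Fin m₂ → ℂ)
    (y : Fin m₁ → ℝ) : ‖sM M a ζ y‖ ≤ 1 := by
  refine (M.le_opNorm _).trans ?_
  calc ‖M‖ * ∏ i, ‖a i (ζ, y i)‖ ≤ 1 * ∏ _j : Fin m₁, (1 : ℝ) := by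
        gcongr with i
        exact hb i _
    _ = 1 := by simp

/-- the pointwise bound -/
theorem ptwise (e : Fin m₁ ⊕ (Fin m₂ ⊕ Fin m₂) ≃ Fin n) (τ : Fin m₂ → ℝ)
    (M : ContinuousMultilinearMap ℂ (fun _ : Fin m₁ => H) ℂ) (hM : ‖M‖ ≤ 1)
    {a : Fin m₁ → (Fin m₂ → ℂ) × ℝ → H} (ha : ∀ i, StronglyMeasurable (a i))
    (hb : ∀ i p, ‖a i p‖ ≤ 1) {σ : (Fin m₂ → ℂ) → ℂ} (hσ : Measurable σ) (hσ1 : ∀ z, ‖σ z‖ ≤ 1)
    (ν : Fin m₂ → Measure ℂ) [∀ j, IsFiniteMeasure (ν j)]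
    {g : (Fin m₁ → ℝ) × (Fin m₂ → ℂ) → ℂ} (hg : Measurable g) (hgi : Integrable g)
    (h0 : ∀ p, (∃ j, p.2 j ∉ Qc) → g p = 0)
    (hw : ∀ y ∈ Icc (-1 : Fin m₁ → ℝ) 1, MixedDbar ν (fun z => g (y, z)) fun z => σ z * sM M a z y)
    (x : Fin n → ℝ) (t : ℝ) (ht : ∀ j, tm τ t j ≠ 0) :
    ‖EE (fun ξ => chirp τ (Psi e ξ).2 * g (Psi e ξ)) (x, t)‖ₑ ≤
      ∫⁻ ζ, ‖EE (sM M a ζ) ((Psi e x).1, t)‖ₑ * ∏ j, kk (tm τ t j) ((Psi e x).2 j) (ζ j)
        ∂(Measure.pi ν) := by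
  have hk := fun j => kern (ht j) ((Psi e x).2 j)
  choose Φ hΦs hΦc hΦd hΦb using hk
  have hΦct : ∀ j, Continuous (Φ j) := fun j => (hΦs j).continuous
  set Y := (Psi e x).1 with hY
  set X := (Psi e x).2 with hX
  have hpm : Measurable fun ζ : Fin m₂ → ℂ => ∏ j, Φ j (ζ j) :=
    Finset.measurable_prod _ fun j _ => (hΦct j).measurable.comp (measurable_pi_apply j)
  -- the factor of `g`
  have hfac : Measurable fun p : (Fin m₁ → ℝ) × (Fin m₂ → ℂ) =>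
      Ay Y t p.1 * ∏ j, pc (X j) (tm τ t j) (p.2 j) := by
    apply ((Ay_meas _ t).comp measurable_fst).mul
    apply Finset.measurable_prod
    intro j _
    exact (pc_cont _ _).measurable.comp (by fun_prop)
  have hint : Integrable fun p : (Fin m₁ → ℝ) × (Fin m₂ → ℂ) => Ay Y t p.1 *
        ((∏ j, pc (X j) (tm τ t j) (p.2 j)) * g p) := by
    have h1 : Integrable fun p : (Fin m₁ → ℝ) × (Fin m₂ → ℂ) =>
        (Ay Y t p.1 * ∏ j, pc (X j) (tm τ t j) (p.2 j)) * g p := by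
      apply hgi.bdd_mul (c := 1) hfac.aestronglyMeasurable
      refine ae_of_all _ fun p => ?_
      rw [norm_mul, norm_prod]
      have : ∏ j, ‖pc (X j) (tm τ t j) (p.2 j)‖ = 1 := Finset.prod_eq_one fun j _ => pc_norm _ _ _
      rw [this, mul_one]
      exact Ay_norm _ _ _
    simpa only [mul_assoc] using h1
  have hstep : ∀ y : Fin m₁ → ℝ, ∫ z : Fin m₂ → ℂ, Ay Y t y *
      ((∏ j, pc (X j) (tm τ t j) (z j)) * g (y, z)) =
      ∫ ζ, (-1) ^ m₂ * (Ay Y t y * ((∏ j, Φ j (ζ j)) * (σ ζ * sM M a ζ y))) ∂(Measure.pi ν) := by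
    intro y
    by_cases hy : y ∈ Icc (-1 : Fin m₁ → ℝ) 1
    · rw [integral_const_mul, integral_const_mul, integral_const_mul]
      have h1 : ∫ z : Fin m₂ → ℂ, (∏ j, pc (X j) (tm τ t j) (z j)) * g (y, z) =
          ∫ z : Fin m₂ → ℂ, g (y, z) * ∏ j, dbar (Φ j) (z j) := by
        apply integral_congr_ae
        refine ae_of_all _ fun z => ?_
        simp only
        by_cases hz : ∃ j, z j ∉ Qc
        · rw [h0 (y, z) hz]
          simp
        · push Not at hz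
          rw [mul_comm]
          congr 1
          apply Finset.prod_congr rfl
          intro j _
          rw [hΦd j (z j) (Qc_norm (hz j))]
          rfl
      rw [h1, hw y hy Φ hΦs hΦc]
      ring
    · have h2 : Ay Y t y = 0 := by
        unfold Ay
        exact indicator_of_notMem hy _
      simp [h2]
  have hker : Measurable fun q : (Fin m₁ → ℝ) × (Fin m₂ → ℂ) =>
      (-1 : ℂ) ^ m₂ * (Ay Y t q.1 * ((∏ j, Φ j (q.2 j)) * (σ q.2 * sM M a q.2 q.1))) := by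
    apply Measurable.mul measurable_const
    apply ((Ay_meas _ t).comp measurable_fst).mul
    apply (hpm.comp measurable_snd).mul
    apply (hσ.comp measurable_snd).mul
    exact ((sM_meas M ha).comp_measurable (by fun_prop :
      Measurable fun q : (Fin m₁ → ℝ) × (Fin m₂ → ℂ) => (q.2, q.1))).measurable
  rw [EE_Psi e τ hg h0 x t]
  have h3 : ∫ p : (Fin m₁ → ℝ) × (Fin m₂ → ℂ), Ay Y t p.1 *
        ((∏ j, pc (X j) (tm τ t j) (p.2 j)) * g p) =
      ∫ y : Fin m₁ → ℝ, ∫ ζ, (-1) ^ m₂ * (Ay Y t y * ((∏ j, Φ j (ζ j)) * (σ ζ * sM M a ζ y)))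
        ∂(Measure.pi ν) := by
    rw [Measure.volume_eq_prod] at hint ⊢
    rw [integral_prod _ hint]
    exact integral_congr_ae (ae_of_all _ fun y => hstep y)
  rw [h3]
  have hΦ8 : ∀ j z, ‖Φ j z‖ ≤ 8 := by
    intro j z
    have h1 : ‖Φ j z‖ₑ ≤ 8 := (hΦb j z).trans (min_le_left _ _)
    rw [← ofReal_norm] at h1
    have h2 : (8 : ℝ≥0∞) = ENNReal.ofReal 8 := by norm_num
    rw [h2] at h1
    exact (ENNReal.ofReal_le_ofReal_iff (by norm_num)).1 h1
  have hmaj : Integrable (fun q : (Fin m₁ → ℝ) × (Fin m₂ → ℂ) =>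
      (Icc (-1 : Fin m₁ → ℝ) 1).indicator (fun _ => (8 : ℝ) ^ m₂) q.1 * (1 : ℝ))
      ((volume : Measure (Fin m₁ → ℝ)).prod (Measure.pi ν)) := by
    apply Integrable.mul_prod (f := (Icc (-1 : Fin m₁ → ℝ) 1).indicator (fun _ => (8 : ℝ) ^ m₂))
      (g := fun _ => (1 : ℝ))
    · rw [integrable_indicator_iff measurableSet_Icc]
      exact integrableOn_const (isCompact_Icc.measure_lt_top).ne enorm_ne_top
    · exact integrable_const _
  have hfub : Integrable (Function.uncurry fun (y : Fin m₁ → ℝ) (ζ : Fin m₂ → ℂ) =>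
      (-1 : ℂ) ^ m₂ * (Ay Y t y * ((∏ j, Φ j (ζ j)) * (σ ζ * sM M a ζ y))))
      ((volume : Measure (Fin m₁ → ℝ)).prod (Measure.pi ν)) := by
    apply hmaj.mono' hker.aestronglyMeasurable
    refine ae_of_all _ fun q => ?_
    show ‖(-1 : ℂ) ^ m₂ * (Ay Y t q.1 * ((∏ j, Φ j (q.2 j)) * (σ q.2 * sM M a q.2 q.1)))‖ ≤
      (Icc (-1 : Fin m₁ → ℝ) 1).indicator (fun _ => (8 : ℝ) ^ m₂) q.1 * (1 : ℝ)
    rw [norm_mul, norm_pow, norm_neg, norm_one, one_pow, one_mul, mul_one, norm_mul, norm_mul, norm_mul,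
      norm_prod]
    by_cases hy : q.1 ∈ Icc (-1 : Fin m₁ → ℝ) 1
    · rw [indicator_of_mem hy]
      have h1 : ∏ j, ‖Φ j (q.2 j)‖ ≤ (8 : ℝ) ^ m₂ := by
        calc ∏ j, ‖Φ j (q.2 j)‖ ≤ ∏ _j : Fin m₂, (8 : ℝ) :=
              Finset.prod_le_prod (fun j _ => norm_nonneg _) fun j _ => hΦ8 j _
          _ = (8 : ℝ) ^ m₂ := by simp
      have h2 : ‖σ q.2‖ * ‖sM M a q.2 q.1‖ ≤ 1 := by
        calc ‖σ q.2‖ * ‖sM M a q.2 q.1‖ ≤ 1 * 1 :=
              mul_le_mul (hσ1 _) (sM_le M hM hb _ _) (norm_nonneg _) zero_le_one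
          _ = 1 := one_mul 1
      calc ‖Ay Y t q.1‖ * ((∏ j, ‖Φ j (q.2 j)‖) * (‖σ q.2‖ * ‖sM M a q.2 q.1‖))
          ≤ 1 * ((8 : ℝ) ^ m₂ * 1) := by
            apply mul_le_mul (Ay_norm _ _ _) _ (by positivity) zero_le_one
            exact mul_le_mul h1 h2 (by positivity) (by positivity)
        _ = (8 : ℝ) ^ m₂ := by ring
    · have h2 : Ay Y t q.1 = 0 := by
        unfold Ay
        exact indicator_of_notMem hy _
      rw [indicator_of_notMem hy, h2, norm_zero, zero_mul]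
  have h4 : ∫ y : Fin m₁ → ℝ, ∫ ζ, (-1) ^ m₂ * (Ay Y t y * ((∏ j, Φ j (ζ j)) * (σ ζ * sM M a ζ y)))
        ∂(Measure.pi ν) =
      ∫ ζ, (∫ y : Fin m₁ → ℝ, (-1) ^ m₂ * (Ay Y t y * ((∏ j, Φ j (ζ j)) * (σ ζ * sM M a ζ y))))
        ∂(Measure.pi ν) := integral_integral_swap hfub
  have h5 : ∀ ζ : Fin m₂ → ℂ,
      ∫ y : Fin m₁ → ℝ, (-1) ^ m₂ * (Ay Y t y * ((∏ j, Φ j (ζ j)) * (σ ζ * sM M a ζ y))) =
      (-1) ^ m₂ * ((∏ j, Φ j (ζ j)) * σ ζ) * EE (sM M a ζ) (Y, t) := by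
    intro ζ
    unfold EE
    rw [← integral_indicator measurableSet_Icc, ← integral_const_mul]
    apply integral_congr_ae
    refine ae_of_all _ fun y => ?_
    simp only
    unfold Ay
    by_cases hy : y ∈ Icc (-1 : Fin m₁ → ℝ) 1
    · rw [indicator_of_mem hy, indicator_of_mem hy]
      ring
    · rw [indicator_of_notMem hy, indicator_of_notMem hy]
      ring
  rw [h4]
  simp only [h5]
  refine (enorm_integral_le_lintegral_enorm _).trans ?_
  apply lintegral_mono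
  intro ζ
  simp only
  rw [enorm_mul, enorm_mul, enorm_mul, enorm_pow, enorm_neg, enorm_one, one_pow, one_mul]
  have h6 : ‖∏ j, Φ j (ζ j)‖ₑ ≤ ∏ j, kk (tm τ t j) (X j) (ζ j) := by
    rw [← ofReal_norm, norm_prod, ENNReal.ofReal_prod_of_nonneg fun j _ => norm_nonneg _]
    apply Finset.prod_le_prod'
    intro j _
    rw [ofReal_norm]
    exact hΦb j _
  have h7 : ‖σ ζ‖ₑ ≤ 1 := by
    rw [← ofReal_norm]
    exact ENNReal.ofReal_le_one.2 (hσ1 ζ)
  calc ‖∏ j, Φ j (ζ j)‖ₑ * ‖σ ζ‖ₑ * ‖EE (sM M a ζ) (Y, t)‖ₑ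
      ≤ (∏ j, kk (tm τ t j) (X j) (ζ j)) * 1 * ‖EE (sM M a ζ) (Y, t)‖ₑ := by gcongr
    _ = _ := by rw [mul_one, mul_comm]

end Pool.Agent.Y251.HB
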