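import Mathlib
import Pool.Agent.Y251.HB.D
set_option autoImplicit false
set_option linter.unusedSectionVars false

/-! # The estimate for functions with a mixed one-sided derivative -/

namespace Pool.Agent.Y251.HB

open MeasureTheory Set Metric Complex Filter
open Pool.Agent.Y251.CP (dbar)
open Pool.Agent.TH277.HT (ch ch_norm ch_enorm ch_cont ch_add ch_sum EE EE_meas Adm E1 E1_meas E1t_meas tr
  tr_meas E1_eq tuple_meas EE_mult mix)
open Pool.Agent.TH277.CB (Phi Phi_mp sum_blk sch_time)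
open scoped ENNReal NNReal ComplexConjugate Topology

attribute [local irreducible] E1

variable {m₁ m₂ n : ℕ}
variable {H : Type} [NormedAddCommGroup H] [InnerProductSpace ℂ H] [CompleteSpace H]

/-- the norm of the one-variable extension -/
noncomputable def Ai (q : ℝ) (a : Fin m₁ → (Fin m₂ → ℂ) × ℝ → H) (i : Fin m₁) (ζ : Fin m₂ → ℂ) (t : ℝ) :
    ℝ≥0∞ := ∫⁻ x : ℝ, ‖E1 (fun u => a i (ζ, u)) x t‖ₑ ^ q

lemma adm {a : Fin m₁ → (Fin m₂ → ℂ) × ℝ → H} (ha : ∀ i, StronglyMeasurable (a i))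
    (hb : ∀ i p, ‖a i p‖ ≤ 1) (i : Fin m₁) (ζ : Fin m₂ → ℂ) : Adm fun u => a i (ζ, u) :=
  ⟨(ha i).comp_measurable (by fun_prop), fun u => hb i _⟩

lemma Ai_meas (q : ℝ) {a : Fin m₁ → (Fin m₂ → ℂ) × ℝ → H} (ha : ∀ i, StronglyMeasurable (a i))
    (i : Fin m₁) : Measurable fun p : (Fin m₂ → ℂ) × ℝ => Ai q a i p.1 p.2 := by
  have h1 : StronglyMeasurable (Function.uncurry fun (p : ((Fin m₂ → ℂ) × ℝ) × ℝ) (u : ℝ) =>
      ch (u * p.2 + u ^ 2 * p.1.2) • a i (p.1.1, u)) := by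
    apply StronglyMeasurable.smul
    · have h2 : Continuous fun q : (((Fin m₂ → ℂ) × ℝ) × ℝ) × ℝ =>
          ch (q.2 * q.1.2 + q.2 ^ 2 * q.1.1.2) := ch_cont.comp (by fun_prop)
      exact h2.stronglyMeasurable
    · exact (ha i).comp_measurable (by fun_prop :
        Measurable fun q : (((Fin m₂ → ℂ) × ℝ) × ℝ) × ℝ => (q.1.1.1, q.2))
  have h3 := h1.integral_prod_right (ν := (volume : Measure ℝ).restrict (Icc (-1 : ℝ) 1))
  have h4 : StronglyMeasurable fun p : ((Fin m₂ → ℂ) × ℝ) × ℝ =>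
      E1 (fun u => a i (p.1.1, u)) p.2 p.1.2 := by
    unfold E1
    exact h3
  exact (h4.enorm.pow_const q).lintegral_prod_right'

lemma EEs_meas (M : ContinuousMultilinearMap ℂ (fun _ : Fin m₁ => H) ℂ)
    {a : Fin m₁ → (Fin m₂ → ℂ) × ℝ → H} (ha : ∀ i, StronglyMeasurable (a i)) (t : ℝ) :
    StronglyMeasurable fun p : (Fin m₂ → ℂ) × (Fin m₁ → ℝ) => EE (sM M a p.1) (p.2, t) := by
  have h1 : StronglyMeasurable (Function.uncurry fun (p : (Fin m₂ → ℂ) × (Fin m₁ → ℝ))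
      (ξ : Fin m₁ → ℝ) => ch (∑ j, ξ j * p.2 j + (∑ j, ξ j ^ 2) * t) * sM M a p.1 ξ) := by
    refine StronglyMeasurable.mul (f := fun q : ((Fin m₂ → ℂ) × (Fin m₁ → ℝ)) × (Fin m₁ → ℝ) =>
      ch (∑ j, q.2 j * q.1.2 j + (∑ j, q.2 j ^ 2) * t))
      (g := fun q : ((Fin m₂ → ℂ) × (Fin m₁ → ℝ)) × (Fin m₁ → ℝ) => sM M a q.1.1 q.2) ?_ ?_
    · exact (ch_cont.comp (by fun_prop : Continuous fun q : ((Fin m₂ → ℂ) × (Fin m₁ → ℝ)) × (Fin m₁ → ℝ) =>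
        (∑ j, q.2 j * q.1.2 j + (∑ j, q.2 j ^ 2) * t))).stronglyMeasurable
    · exact (sM_meas M ha).comp_measurable (by fun_prop :
        Measurable fun q : ((Fin m₂ → ℂ) × (Fin m₁ → ℝ)) × (Fin m₁ → ℝ) => (q.1.1, q.2))
  exact h1.integral_prod_right (ν := (volume : Measure (Fin m₁ → ℝ)).restrict (Icc (-1) 1))

attribute [local irreducible] kk EE Bt Ai chirp be

/-- the bound at a fixed time -/
theorem fix_time {q : ℝ} (hq : 2 < q) {CJ : ℝ≥0∞}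
    (e : Fin m₁ ⊕ (Fin m₂ ⊕ Fin m₂) ≃ Fin n) (τ : Fin m₂ → ℝ)
    (M : ContinuousMultilinearMap ℂ (fun _ : Fin m₁ => H) ℂ) (hM : ‖M‖ ≤ 1)
    {a : Fin m₁ → (Fin m₂ → ℂ) × ℝ → H} (ha : ∀ i, StronglyMeasurable (a i))
    (hb : ∀ i p, ‖a i p‖ ≤ 1) {σ : (Fin m₂ → ℂ) → ℂ} (hσ : Measurable σ) (hσ1 : ∀ z, ‖σ z‖ ≤ 1)
    (ν : Fin m₂ → Measure ℂ) [∀ j, IsFiniteMeasure (ν j)]
    (hJ : ∀ j, ∀ t : ℝ, ∀ᵐ ζ ∂(ν j),
      ∫⁻ x : ℂ, kk t x ζ ^ (3 / 2 : ℝ) * (∫⁻ w, kk t x w ^ be q ∂(ν j)) ^ (q - 1) ≤ CJ * Bt q t)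
    {g : (Fin m₁ → ℝ) × (Fin m₂ → ℂ) → ℂ} (hg : Measurable g) (hgi : Integrable g)
    (h0 : ∀ p, (∃ j, p.2 j ∉ Qc) → g p = 0)
    (hw : ∀ y ∈ Icc (-1 : Fin m₁ → ℝ) 1, MixedDbar ν (fun z => g (y, z)) fun z => σ z * sM M a z y)
    (t : ℝ) (ht : ∀ j, tm τ t j ≠ 0) :
    ∫⁻ x : Fin n → ℝ, ‖EE (fun ξ => chirp τ (Psi e ξ).2 * g (Psi e ξ)) (x, t)‖ₑ ^ q ≤
      (∏ j, (CJ * Bt q (tm τ t j))) * ∫⁻ ζ, (∏ i, Ai q a i ζ t) ∂(Measure.pi ν) := by
  have hq0 : 0 < q := by linarith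
  set Hf : (Fin m₂ → ℂ) × (Fin m₁ → ℝ) → ℝ≥0∞ := fun p => ‖EE (sM M a p.1) (p.2, t)‖ₑ with hHf
  have hHm : Measurable Hf := (EEs_meas M ha t).enorm
  set Z : (Fin m₁ → ℝ) × (Fin m₂ → ℂ) → ℝ≥0∞ := fun p =>
    (∫⁻ ζ, Hf (ζ, p.1) * ∏ j, kk (tm τ t j) (p.2 j) (ζ j) ∂(Measure.pi ν)) ^ q with hZ
  have hZm : Measurable Z := by
    have h1 : Measurable (Function.uncurry fun (p : (Fin m₁ → ℝ) × (Fin m₂ → ℂ)) (ζ : Fin m₂ → ℂ) =>
        Hf (ζ, p.1) * ∏ j, kk (tm τ t j) (p.2 j) (ζ j)) := by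
      apply Measurable.mul
      · exact hHm.comp (by fun_prop : Measurable fun q : ((Fin m₁ → ℝ) × (Fin m₂ → ℂ)) × (Fin m₂ → ℂ) =>
          (q.2, q.1.1))
      · apply Finset.measurable_prod
        intro j _
        exact (kk_meas (tm τ t j)).comp (by fun_prop :
          Measurable fun q : ((Fin m₁ → ℝ) × (Fin m₂ → ℂ)) × (Fin m₂ → ℂ) => (q.1.2 j, q.2 j))
    exact h1.lintegral_prod_right'.pow_const q
  calc ∫⁻ x : Fin n → ℝ, ‖EE (fun ξ => chirp τ (Psi e ξ).2 * g (Psi e ξ)) (x, t)‖ₑ ^ q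
      ≤ ∫⁻ x : Fin n → ℝ, Z (Psi e x) := by
        apply lintegral_mono
        intro x
        exact ENNReal.rpow_le_rpow (ptwise e τ M hM ha hb hσ hσ1 ν hg hgi h0 hw x t ht) hq0.le
    _ = ∫⁻ p, Z p := (Psi_mp e).lintegral_comp hZm
    _ = ∫⁻ Y : Fin m₁ → ℝ, ∫⁻ X : Fin m₂ → ℂ, Z (Y, X) := by
        rw [Measure.volume_eq_prod]
        exact lintegral_prod _ hZm.aemeasurable
    _ ≤ ∫⁻ Y : Fin m₁ → ℝ, (∏ j, (CJ * Bt q (tm τ t j))) *
          ∫⁻ ζ, Hf (ζ, Y) ^ q ∂(Measure.pi ν) := by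
        apply lintegral_mono
        intro Y
        exact tens hq ν (fun j x ζ => kk (tm τ t j) x ζ) (fun j => kk_meas (tm τ t j))
          (fun j => CJ * Bt q (tm τ t j)) (fun j => hJ j _) (fun ζ => Hf (ζ, Y))
          (hHm.comp (by fun_prop))
    _ = (∏ j, (CJ * Bt q (tm τ t j))) * ∫⁻ Y : Fin m₁ → ℝ, ∫⁻ ζ, Hf (ζ, Y) ^ q ∂(Measure.pi ν) := by
        rw [lintegral_const_mul]
        have h1 : Measurable (Function.uncurry fun (Y : Fin m₁ → ℝ) (ζ : Fin m₂ → ℂ) => Hf (ζ, Y) ^ q) :=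
          (hHm.comp measurable_swap).pow_const q
        exact h1.lintegral_prod_right'
    _ = (∏ j, (CJ * Bt q (tm τ t j))) * ∫⁻ ζ, (∫⁻ Y : Fin m₁ → ℝ, Hf (ζ, Y) ^ q) ∂(Measure.pi ν) := by
        congr 1
        apply lintegral_lintegral_swap
        exact ((hHm.comp measurable_swap).pow_const q).aemeasurable
    _ ≤ _ := by
        gcongr with ζ
        have h1 := sch_time hq0 M hM (fun i => adm ha hb i ζ) t
        simp only [hHf, Ai]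
        exact h1

/-- **the main estimate** -/
theorem main (m₁ m₂ n : ℕ) (hm₂ : 1 ≤ m₂) (hn : n = m₁ + 2 * m₂) (q : ℝ)
    (hq : 2 * ((n : ℝ) + 1) / n < q) (A : ℝ≥0) :
    ∃ C : ℝ≥0, ∀ (e : Fin m₁ ⊕ (Fin m₂ ⊕ Fin m₂) ≃ Fin n) (H : Type) [NormedAddCommGroup H]
      [InnerProductSpace ℂ H] [CompleteSpace H]
      (M : ContinuousMultilinearMap ℂ (fun _ : Fin m₁ => H) ℂ)
      (a : Fin m₁ → (Fin m₂ → ℂ) × ℝ → H) (σ : (Fin m₂ → ℂ) → ℂ) (ν : Fin m₂ → Measure ℂ)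
      (τ : Fin m₂ → ℝ) (g : (Fin m₁ → ℝ) × (Fin m₂ → ℂ) → ℂ),
      ‖M‖ ≤ 1 → (∀ i, StronglyMeasurable (a i)) → (∀ i p, ‖a i p‖ ≤ 1) →
      Measurable σ → (∀ z, ‖σ z‖ ≤ 1) → (∀ j, PotLe q A (ν j)) →
      Measurable g → Integrable g → (∀ p, (∃ j, p.2 j ∉ Qc) → g p = 0) →
      (∀ y ∈ Icc (-1 : Fin m₁ → ℝ) 1, MixedDbar ν (fun z => g (y, z)) fun z => σ z * sM M a z y) →
      ∫⁻ y : (Fin n → ℝ) × ℝ, ‖EE (fun ξ => chirp τ (Psi e ξ).2 * g (Psi e ξ)) y‖ₑ ^ q ≤ C := by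
  have hn2 : 2 ≤ n := by omega
  have hn0' : 0 < n := by omega
  have hn0 : (0 : ℝ) < n := by exact_mod_cast hn0'
  have hq2 : 2 < q := by
    have h1 : 2 < 2 * ((n : ℝ) + 1) / n := by
      rw [lt_div_iff₀ hn0]
      linarith
    linarith
  have hq0 : 0 < q := by linarith
  have hqn : 1 < (q - 2) * ((n : ℝ) / 2) := by
    rw [div_lt_iff₀ hn0] at hq
    linarith
  obtain ⟨C, hC⟩ := mix n hn2 q hq
  obtain ⟨CJ, hCJ⟩ := Jb hq2 A
  obtain ⟨CB, hCB⟩ := Bt_int (q := q) (p := (n : ℝ) / 2) (by positivity) hqn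
  set p : Fin m₁ ⊕ Fin m₂ → ℝ := Sum.elim (fun _ => 1 / (n : ℝ)) (fun _ => 2 / (n : ℝ)) with hp
  have hsum : ∑ i, p i = 1 := by
    rw [Fintype.sum_sum_type]
    simp only [hp, Sum.elim_inl, Sum.elim_inr, Finset.sum_const, Finset.card_univ, Fintype.card_fin, nsmul_eq_mul]
    have h1 : (n : ℝ) = m₁ + 2 * m₂ := by exact_mod_cast hn
    rw [mul_one_div, mul_div_assoc', ← add_div, mul_comm (m₂ : ℝ) 2, ← h1, div_self hn0.ne']
  set K : ℝ≥0∞ := (((C : ℝ≥0∞) ^ (1 / (n : ℝ))) ^ m₁ *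
    (((CJ : ℝ≥0∞) ^ ((n : ℝ) / 2) * CB) ^ (2 / (n : ℝ))) ^ m₂) * (2 * A) ^ m₂ with hK
  have hKt : K ≠ ⊤ := by
    rw [hK]
    apply ENNReal.mul_ne_top
    · apply ENNReal.mul_ne_top
      · exact ENNReal.pow_ne_top (ENNReal.rpow_ne_top_of_nonneg (by positivity) ENNReal.coe_ne_top)
      · apply ENNReal.pow_ne_top
        apply ENNReal.rpow_ne_top_of_nonneg (by positivity)
        exact ENNReal.mul_ne_top (ENNReal.rpow_ne_top_of_nonneg (by positivity) ENNReal.coe_ne_top)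
          ENNReal.coe_ne_top
    · exact ENNReal.pow_ne_top (ENNReal.mul_ne_top (by norm_num) ENNReal.coe_ne_top)
  refine ⟨K.toNNReal, ?_⟩
  intro e H _ _ _ M a σ ν τ g hM ha hb hσ hσ1 hν hg hgi h0 hw
  rw [ENNReal.coe_toNNReal hKt]
  have hfin : ∀ j, IsFiniteMeasure (ν j) := fun j => ⟨((hν j).mass hq2).trans_lt
    (ENNReal.mul_lt_top (by norm_num) ENNReal.coe_lt_top)⟩
  have hJ : ∀ j, ∀ t : ℝ, ∀ᵐ ζ ∂(ν j),
      ∫⁻ x : ℂ, kk t x ζ ^ (3 / 2 : ℝ) * (∫⁻ w, kk t x w ^ be q ∂(ν j)) ^ (q - 1) ≤ CJ * Bt q t := by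
    intro j t
    filter_upwards [(hν j).1] with ζ hζ
    exact hCJ (ν j) (hfin j) (hν j) t ζ hζ
  set f : (Fin n → ℝ) → ℂ := fun ξ => chirp τ (Psi e ξ).2 * g (Psi e ξ) with hf
  have hfm : StronglyMeasurable f := by
    apply Measurable.stronglyMeasurable
    exact ((chirp_cont τ).measurable.comp (measurable_snd.comp (Psi_mp e).measurable)).mul
      (hg.comp (Psi_mp e).measurable)
  have hEm : Measurable fun y : (Fin n → ℝ) × ℝ => ‖EE f y‖ₑ ^ q :=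
    (EE_meas hfm).enorm.pow_const q
  have htm : ∀ᵐ t : ℝ, ∀ j, tm τ t j ≠ 0 := by
    rw [ae_all_iff]
    intro j
    have h1 : ∀ᵐ t : ℝ, t ≠ -(τ j / (2 * Real.pi)) := by
      rw [ae_iff]
      simp
    filter_upwards [h1] with t ht h
    apply ht
    unfold tm at h
    linarith
  have hBm : ∀ j, Measurable fun t : ℝ => CJ * Bt q (tm τ t j) := by
    intro j
    apply Measurable.const_mul
    exact (Bt_meas q).comp (by unfold tm; fun_prop)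
  have hAm : ∀ i, Measurable fun p : (Fin m₂ → ℂ) × ℝ => Ai q a i p.1 p.2 := Ai_meas q ha
  have hAm1 : ∀ i (ζ : Fin m₂ → ℂ), Measurable fun t : ℝ => Ai q a i ζ t := fun i ζ =>
    (hAm i).comp (by fun_prop : Measurable fun t : ℝ => (ζ, t))
  -- the bound for fixed values of the pairs
  have hζ : ∀ ζ : Fin m₂ → ℂ, ∫⁻ t : ℝ, (∏ j, ((CJ : ℝ≥0∞) * Bt q (tm τ t j))) * ∏ i, Ai q a i ζ t ≤
      ((C : ℝ≥0∞) ^ (1 / (n : ℝ))) ^ m₁ *
        (((CJ : ℝ≥0∞) ^ ((n : ℝ) / 2) * CB) ^ (2 / (n : ℝ))) ^ m₂ := by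
    intro ζ
    set F : Fin m₁ ⊕ Fin m₂ → ℝ → ℝ≥0∞ := Sum.elim (fun i t => Ai q a i ζ t ^ (n : ℝ))
      (fun j t => (CJ * Bt q (tm τ t j)) ^ ((n : ℝ) / 2)) with hF
    have hFm : ∀ i, Measurable (F i) := by
      rintro (i | j)
      · exact (hAm1 i ζ).pow_const _
      · exact (hBm j).pow_const _
    calc ∫⁻ t : ℝ, (∏ j, ((CJ : ℝ≥0∞) * Bt q (tm τ t j))) * ∏ i, Ai q a i ζ t
        = ∫⁻ t : ℝ, ∏ i, F i t ^ p i := by
          apply lintegral_congr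
          intro t
          rw [Fintype.prod_sum_type]
          simp only [hF, hp, Sum.elim_inl, Sum.elim_inr]
          have h1 : ∀ i, (Ai q a i ζ t ^ (n : ℝ)) ^ (1 / (n : ℝ)) = Ai q a i ζ t := by
            intro i
            rw [← ENNReal.rpow_mul, mul_one_div_cancel hn0.ne', ENNReal.rpow_one]
          have h2 : ∀ j, ((CJ * Bt q (tm τ t j)) ^ ((n : ℝ) / 2)) ^ (2 / (n : ℝ)) =
              CJ * Bt q (tm τ t j) := by
            intro j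
            rw [← ENNReal.rpow_mul, div_mul_div_comm, mul_comm (n : ℝ) 2, div_self (by positivity),
              ENNReal.rpow_one]
          simp only [h1, h2]
          rw [mul_comm]
      _ ≤ ∏ i, (∫⁻ t : ℝ, F i t) ^ p i := by
          apply ENNReal.lintegral_prod_norm_pow_le _ (fun i _ => (hFm i).aemeasurable) hsum
          rintro (j | j) _
          · simp only [hp, Sum.elim_inl]; positivity
          · simp only [hp, Sum.elim_inr]; positivity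
      _ = (∏ i : Fin m₁, (∫⁻ t : ℝ, Ai q a i ζ t ^ (n : ℝ)) ^ (1 / (n : ℝ))) *
            ∏ j : Fin m₂, (∫⁻ t : ℝ, (CJ * Bt q (tm τ t j)) ^ ((n : ℝ) / 2)) ^ (2 / (n : ℝ)) := by
          rw [Fintype.prod_sum_type]
          simp only [hF, hp, Sum.elim_inl, Sum.elim_inr]
      _ ≤ (∏ _i : Fin m₁, (C : ℝ≥0∞) ^ (1 / (n : ℝ))) *
            ∏ _j : Fin m₂, ((CJ : ℝ≥0∞) ^ ((n : ℝ) / 2) * CB) ^ (2 / (n : ℝ)) := by
          gcongr with i _ j _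
          · have h1 := hC H (fun u => a i (ζ, u)) (adm ha hb i ζ)
            simp only [Ai]
            exact h1
          · have h1 : ∀ t : ℝ, ((CJ : ℝ≥0∞) * Bt q (tm τ t j)) ^ ((n : ℝ) / 2) =
                (CJ : ℝ≥0∞) ^ ((n : ℝ) / 2) * (fun t => Bt q t ^ ((n : ℝ) / 2)) (t + τ j / (2 * Real.pi)) :=
              fun t => ENNReal.mul_rpow_of_nonneg _ _ (by positivity)
            simp only [h1]
            rw [lintegral_const_mul' _ _ (ENNReal.rpow_ne_top_of_nonneg (by positivity) ENNReal.coe_ne_top)]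
            gcongr
            refine le_trans (le_of_eq ?_) hCB
            exact lintegral_add_right_eq_self (μ := (volume : Measure ℝ)) (fun t => Bt q t ^ ((n : ℝ) / 2))
              (τ j / (2 * Real.pi))
      _ = _ := by
          rw [Finset.prod_const, Finset.prod_const, Finset.card_univ, Finset.card_univ,
            Fintype.card_fin, Fintype.card_fin]
  rw [Measure.volume_eq_prod, lintegral_prod_symm _ hEm.aemeasurable]
  calc ∫⁻ t : ℝ, ∫⁻ x : Fin n → ℝ, ‖EE f (x, t)‖ₑ ^ q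
      ≤ ∫⁻ t : ℝ, (∏ j, ((CJ : ℝ≥0∞) * Bt q (tm τ t j))) * ∫⁻ ζ, (∏ i, Ai q a i ζ t) ∂(Measure.pi ν) := by
        apply lintegral_mono_ae
        filter_upwards [htm] with t ht
        exact fix_time hq2 e τ M hM ha hb hσ hσ1 ν hJ hg hgi h0 hw t ht
    _ = ∫⁻ t : ℝ, ∫⁻ ζ, ((∏ j, ((CJ : ℝ≥0∞) * Bt q (tm τ t j))) * ∏ i, Ai q a i ζ t) ∂(Measure.pi ν) := by
        apply lintegral_congr
        intro t
        rw [lintegral_const_mul]
        apply Finset.measurable_prod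
        intro i _
        exact (hAm i).comp (by fun_prop : Measurable fun ζ : Fin m₂ → ℂ => (ζ, t))
    _ = ∫⁻ ζ, (∫⁻ t : ℝ, (∏ j, ((CJ : ℝ≥0∞) * Bt q (tm τ t j))) * ∏ i, Ai q a i ζ t) ∂(Measure.pi ν) := by
        apply lintegral_lintegral_swap
        apply Measurable.aemeasurable
        apply Measurable.mul
        · apply Finset.measurable_prod
          intro j _
          exact (hBm j).comp measurable_fst
        · apply Finset.measurable_prod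
          intro i _
          exact (hAm i).comp (by fun_prop : Measurable fun p : ℝ × (Fin m₂ → ℂ) => (p.2, p.1))
    _ ≤ ∫⁻ _ζ, (((C : ℝ≥0∞) ^ (1 / (n : ℝ))) ^ m₁ *
        (((CJ : ℝ≥0∞) ^ ((n : ℝ) / 2) * CB) ^ (2 / (n : ℝ))) ^ m₂) ∂(Measure.pi ν) :=
        lintegral_mono hζ
    _ = (((C : ℝ≥0∞) ^ (1 / (n : ℝ))) ^ m₁ *
        (((CJ : ℝ≥0∞) ^ ((n : ℝ) / 2) * CB) ^ (2 / (n : ℝ))) ^ m₂) * ∏ j, ν j univ := by
        rw [lintegral_const, Measure.pi_univ]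
    _ ≤ K := by
        rw [hK]
        gcongr
        calc ∏ j, ν j univ ≤ ∏ _j : Fin m₂, (2 * (A : ℝ≥0∞)) :=
              Finset.prod_le_prod' fun j _ => (hν j).mass hq2
          _ = _ := by rw [Finset.prod_const, Finset.card_univ, Fintype.card_fin]

end Pool.Agent.Y251.HB
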