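import Mathlib
import Pool.Agent.Y251.HB.B
set_option autoImplicit false

/-! # The potential of a measure of linear growth -/

namespace Pool.Agent.Y251.HB

open MeasureTheory Set Metric Complex Filter
open scoped ENNReal NNReal ComplexConjugate Topology

lemma dyad {β : ℝ} (hβ : 0 ≤ β) {z w : ℂ} (hne : w ≠ z) :
    (‖z - w‖ₑ⁻¹) ^ β ≤ 1 + ∑' k : ℕ, (closedBall z ((1 / 2) ^ k)).indicator
      (fun _ => ENNReal.ofReal (2 ^ (β * (k + 1)))) w := by
  have hp : 0 < ‖z - w‖ := norm_pos_iff.2 (sub_ne_zero.2 (Ne.symm hne))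
  have e1 : (‖z - w‖ₑ⁻¹) ^ β = ENNReal.ofReal ((‖z - w‖⁻¹) ^ β) := by
    rw [← ofReal_norm, ← ENNReal.ofReal_inv_of_pos hp, ENNReal.ofReal_rpow_of_pos (by positivity)]
  rw [e1]
  by_cases h : 1 ≤ ‖z - w‖
  · refine le_trans ?_ le_self_add
    rw [ENNReal.ofReal_le_one]
    exact Real.rpow_le_one (by positivity) (inv_le_one_of_one_le₀ h) hβ
  · have h1 : 1 ≤ ‖z - w‖⁻¹ := (one_le_inv₀ hp).2 (not_le.1 h).le
    obtain ⟨k, hk1, hk2⟩ := exists_nat_pow_near h1 (by norm_num : (1 : ℝ) < 2)
    refine le_trans ?_ le_add_self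
    refine le_trans ?_ (ENNReal.le_tsum k)
    rw [indicator_of_mem]
    · apply ENNReal.ofReal_le_ofReal
      have e2 : (2 : ℝ) ^ (β * (k + 1)) = ((2 : ℝ) ^ (k + 1)) ^ β := by
        rw [← Real.rpow_natCast, ← Real.rpow_mul (by norm_num)]
        push_cast
        rw [mul_comm]
      rw [e2]
      exact Real.rpow_le_rpow (by positivity) hk2.le hβ
    · rw [mem_closedBall, dist_eq_norm, norm_sub_rev]
      rw [one_div, inv_pow]
      exact (le_inv_comm₀ (by positivity) hp).1 hk1

/-- linear growth implies the bound for the potential -/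
theorem frost {q : ℝ} (hq : 2 < q) (A : ℝ) : ∃ A' : ℝ≥0, ∀ ν : Measure ℂ,
    (∀ (z : ℂ) (r : ℝ), 0 < r → ν (closedBall z r) ≤ ENNReal.ofReal (A * r)) →
    (∀ᵐ w ∂ν, ‖w‖ ≤ 2) → PotLe q A' ν := by
  have hb0 := be_pos hq
  have hb1 := be_lt hq
  set ρ : ℝ≥0∞ := ENNReal.ofReal ((2 : ℝ) ^ (be q - 1)) with hρ
  have hρ1 : ρ < 1 := by
    rw [hρ, ENNReal.ofReal_lt_one]
    exact Real.rpow_lt_one_of_one_lt_of_neg (by norm_num) (by linarith)
  set K : ℝ≥0∞ := ENNReal.ofReal (A * 2) + ENNReal.ofReal (2 ^ be q) * ENNReal.ofReal A * (1 - ρ)⁻¹ with hK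
  have hKf : K ≠ ∞ := by
    rw [hK]
    apply ENNReal.add_ne_top.2
    refine ⟨ENNReal.ofReal_ne_top, ENNReal.mul_ne_top (ENNReal.mul_ne_top ENNReal.ofReal_ne_top
      ENNReal.ofReal_ne_top) ?_⟩
    rw [ENNReal.inv_ne_top]
    exact (tsub_pos_of_lt hρ1).ne'
  refine ⟨K.toNNReal, ?_⟩
  intro ν hν hs
  refine ⟨hs, ?_⟩
  intro z
  rw [ENNReal.coe_toNNReal hKf]
  have hmass : ν univ ≤ ENNReal.ofReal (A * 2) := by
    have h1 : ν univ ≤ ν (closedBall 0 2) := by
      apply measure_mono_ae
      filter_upwards [hs] with w hw _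
      exact mem_closedBall_zero_iff.2 hw
    exact h1.trans (hν 0 2 (by norm_num))
  have hz : ν {z} = 0 := by
    by_contra hc
    have h1 : ∀ r : ℝ, 0 < r → ν {z} ≤ ENNReal.ofReal (A * r) := fun r hr =>
      (measure_mono (singleton_subset_iff.2 (mem_closedBall_self hr.le))).trans (hν z r hr)
    have h2 : Tendsto (fun r : ℝ => ENNReal.ofReal (A * r)) (𝓝[>] 0) (𝓝 0) := by
      have h3 : Tendsto (fun r : ℝ => ENNReal.ofReal (A * r)) (𝓝 0) (𝓝 (ENNReal.ofReal (A * 0))) :=
        (ENNReal.continuous_ofReal.comp (continuous_const.mul continuous_id)).tendsto 0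
      rw [mul_zero, ENNReal.ofReal_zero] at h3
      exact h3.mono_left nhdsWithin_le_nhds
    have h4 : ν {z} ≤ 0 := by
      apply ge_of_tendsto h2
      filter_upwards [self_mem_nhdsWithin] with r hr
      exact h1 r hr
    exact hc (le_antisymm h4 zero_le)
  have hae : ∀ᵐ w ∂ν, w ≠ z := by
    rw [ae_iff]
    simpa using hz
  calc ∫⁻ w, (‖z - w‖ₑ⁻¹) ^ be q ∂ν
      ≤ ∫⁻ w, (1 + ∑' k : ℕ, (closedBall z ((1 / 2) ^ k)).indicator
          (fun _ => ENNReal.ofReal (2 ^ (be q * (k + 1)))) w) ∂ν := by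
        apply lintegral_mono_ae
        filter_upwards [hae] with w hw
        exact dyad hb0.le hw
    _ = ν univ + ∑' k : ℕ, ENNReal.ofReal (2 ^ (be q * (k + 1))) * ν (closedBall z ((1 / 2) ^ k)) := by
        rw [lintegral_add_left measurable_const, lintegral_one, lintegral_tsum]
        · congr 1
          apply tsum_congr
          intro k
          rw [lintegral_indicator_const measurableSet_closedBall]
        · intro k
          exact (measurable_const.indicator measurableSet_closedBall).aemeasurable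
    _ ≤ ENNReal.ofReal (A * 2) + ∑' k : ℕ, ENNReal.ofReal (2 ^ be q) * ENNReal.ofReal A * ρ ^ k := by
        refine add_le_add hmass (ENNReal.tsum_le_tsum fun k => ?_)
        calc ENNReal.ofReal (2 ^ (be q * (k + 1))) * ν (closedBall z ((1 / 2) ^ k))
            ≤ ENNReal.ofReal (2 ^ (be q * (k + 1))) * ENNReal.ofReal (A * (1 / 2) ^ k) := by
              gcongr
              exact hν z _ (by positivity)
          _ = ENNReal.ofReal (2 ^ be q) * ENNReal.ofReal A * ρ ^ k := by
              have e1 : (1 / 2 : ℝ) ^ k = 2 ^ (-(k : ℝ)) := by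
                rw [Real.rpow_neg (by norm_num), Real.rpow_natCast, one_div, inv_pow]
              have e2 : ((2 : ℝ) ^ (be q - 1)) ^ k = 2 ^ ((be q - 1) * k) := by
                rw [Real.rpow_mul (by norm_num), Real.rpow_natCast]
              have e3 : ENNReal.ofReal (2 ^ (be q * (k + 1))) * ENNReal.ofReal ((1 / 2) ^ k) =
                  ENNReal.ofReal (2 ^ be q) * ρ ^ k := by
                rw [hρ, ← ENNReal.ofReal_pow (by positivity), ← ENNReal.ofReal_mul (by positivity),
                  ← ENNReal.ofReal_mul (by positivity), e1, e2, ← Real.rpow_add (by norm_num),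
                  ← Real.rpow_add (by norm_num)]
                congr 2
                ring
              rw [ENNReal.ofReal_mul' (by positivity : (0 : ℝ) ≤ (1 / 2) ^ k)]
              calc ENNReal.ofReal (2 ^ (be q * (k + 1))) * (ENNReal.ofReal A * ENNReal.ofReal ((1 / 2) ^ k))
                  = (ENNReal.ofReal (2 ^ (be q * (k + 1))) * ENNReal.ofReal ((1 / 2) ^ k)) *
                      ENNReal.ofReal A := by ring
                _ = _ := by
                    rw [e3]
                    ring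
    _ = K := by
        rw [ENNReal.tsum_mul_left, ENNReal.tsum_geometric]

end Pool.Agent.Y251.HB
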