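import Mathlib
set_option autoImplicit false

/-! # An identity in each variable gives an identity in all variables -/

namespace Pool.Agent.Y251.HB

open MeasureTheory Set Metric Complex Filter
open scoped ENNReal NNReal ComplexConjugate Topology

lemma int_help {m : ℕ} (ν0 : Measure ℂ) [SigmaFinite ν0] (μ : Fin m → Measure ℂ)
    [∀ j, SigmaFinite (μ j)] (K0 : ℂ → ℂ) (hK0 : Integrable K0 ν0) (P : Fin m → ℂ → ℂ)
    (hP : ∀ j, Integrable (P j) (μ j)) (F : (Fin (m + 1) → ℂ) → ℂ) (hF : Measurable F) (B : ℝ)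
    (hB : ∀ z, ‖F z‖ ≤ B) :
    Integrable (fun p : ℂ × (Fin m → ℂ) => (K0 p.1 * ∏ j, P j (p.2 j)) * F (Fin.cons p.1 p.2))
      (ν0.prod (Measure.pi μ)) := by
  have h1 : Integrable (fun r : Fin m → ℂ => ∏ j, P j (r j)) (Measure.pi μ) :=
    Integrable.fintype_prod hP
  have h2 := hK0.mul_prod h1
  apply h2.mul_bdd (c := B)
  · have h3 : Measurable fun p : ℂ × (Fin m → ℂ) => (Fin.cons p.1 p.2 : Fin (m + 1) → ℂ) := by
      rw [measurable_pi_iff]
      intro i
      refine Fin.cases ?_ (fun j => ?_) i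
      · simpa using measurable_fst
      · simp only [Fin.cons_succ]
        fun_prop
    exact (hF.comp h3).aestronglyMeasurable
  · exact ae_of_all _ fun p => hB _

/-- an identity in each variable gives an identity in all variables -/
theorem multi {m : ℕ} (μ ν : Fin m → Measure ℂ) [∀ j, SigmaFinite (μ j)] [∀ j, SigmaFinite (ν j)]
    (P K : Fin m → ℂ → ℂ) (hP : ∀ j, Integrable (P j) (μ j)) (hK : ∀ j, Integrable (K j) (ν j))
    (F : (Fin m → ℂ) → ℂ) (hF : Measurable F) (B : ℝ) (hB : ∀ z, ‖F z‖ ≤ B)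
    (h : ∀ j z, ∫ w, P j w * F (Function.update z j w) ∂(μ j) =
      ∫ w, K j w * F (Function.update z j w) ∂(ν j)) :
    ∫ z, (∏ j, P j (z j)) * F z ∂(Measure.pi μ) = ∫ z, (∏ j, K j (z j)) * F z ∂(Measure.pi ν) := by
  induction m with
  | zero =>
    rw [Measure.pi_of_empty μ default, Measure.pi_of_empty ν default]
    simp
  | succ m ih =>
    have red : ∀ (μ : Fin (m + 1) → Measure ℂ) [∀ j, SigmaFinite (μ j)] (P : Fin (m + 1) → ℂ → ℂ),
        ∫ z, (∏ j, P j (z j)) * F z ∂(Measure.pi μ) =
          ∫ p : ℂ × (Fin m → ℂ), (P 0 p.1 * ∏ j, P (Fin.succ j) (p.2 j)) * F (Fin.cons p.1 p.2)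
            ∂((μ 0).prod (Measure.pi fun j => μ (Fin.succ j))) := by
      intro μ _ P
      have h1 := (measurePreserving_piFinSuccAbove μ 0).symm
      have h2 := h1.integral_comp (MeasurableEquiv.measurableEmbedding _)
        (fun z : Fin (m + 1) → ℂ => (∏ j, P j (z j)) * F z)
      rw [← h2]
      apply integral_congr_ae
      refine ae_of_all _ fun p => ?_
      simp only [Fin.prod_univ_succ]
      simp [MeasurableEquiv.piFinSuccAbove_symm_apply, Fin.insertNthEquiv]
    rw [red μ P, red ν K]
    have i1 := int_help (μ 0) (fun j => μ (Fin.succ j)) (P 0) (hP 0) (fun j => P (Fin.succ j))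
      (fun j => hP _) F hF B hB
    have i2 := int_help (ν 0) (fun j => μ (Fin.succ j)) (K 0) (hK 0) (fun j => P (Fin.succ j))
      (fun j => hP _) F hF B hB
    have i3 := int_help (ν 0) (fun j => ν (Fin.succ j)) (K 0) (hK 0) (fun j => K (Fin.succ j))
      (fun j => hK _) F hF B hB
    rw [integral_prod_symm _ i1, integral_prod _ i3]
    have e1 : ∀ r : Fin m → ℂ, ∫ w, (P 0 w * ∏ j, P (Fin.succ j) (r j)) * F (Fin.cons w r) ∂(μ 0) =
        ∫ w, (K 0 w * ∏ j, P (Fin.succ j) (r j)) * F (Fin.cons w r) ∂(ν 0) := by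
      intro r
      have h3 := h 0 (Fin.cons 0 r)
      simp only [Fin.update_cons_zero] at h3
      have h4 : ∀ (κ : Measure ℂ) (Q : ℂ → ℂ),
          ∫ w, (Q w * ∏ j, P (Fin.succ j) (r j)) * F (Fin.cons w r) ∂κ =
          (∏ j, P (Fin.succ j) (r j)) * ∫ w, Q w * F (Fin.cons w r) ∂κ := by
        intro κ Q
        rw [← integral_const_mul]
        apply integral_congr_ae
        refine ae_of_all _ fun w => ?_
        simp only
        ring
      rw [h4, h4, h3]
    simp only [e1]
    rw [← integral_prod_symm _ i2, integral_prod _ i2]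
    apply integral_congr_ae
    refine ae_of_all _ fun w => ?_
    simp only
    have h5 := ih (fun j => μ (Fin.succ j)) (fun j => ν (Fin.succ j)) (fun j => P (Fin.succ j))
      (fun j => K (Fin.succ j)) (fun j => hP _) (fun j => hK _) (fun r => F (Fin.cons w r)) (by
        have h3 : Measurable fun r : Fin m → ℂ => (Fin.cons w r : Fin (m + 1) → ℂ) := by
          rw [measurable_pi_iff]
          intro i
          refine Fin.cases ?_ (fun j => ?_) i
          · simp
          · simp only [Fin.cons_succ]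
            fun_prop
        exact hF.comp h3) (fun r => hB _) (by
        intro j r
        have h6 := h (Fin.succ j) (Fin.cons w r)
        simpa only [← Fin.cons_update] using h6)
    have h4 : ∀ (κ : Fin m → Measure ℂ) (Q : Fin m → ℂ → ℂ),
        ∫ r, (K 0 w * ∏ j, Q j (r j)) * F (Fin.cons w r) ∂(Measure.pi κ) =
        K 0 w * ∫ r, (∏ j, Q j (r j)) * F (Fin.cons w r) ∂(Measure.pi κ) := by
      intro κ Q
      rw [← integral_const_mul]
      apply integral_congr_ae
      refine ae_of_all _ fun r => ?_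
      simp only
      ring
    rw [h4 (fun j => μ (Fin.succ j)) (fun j => P (Fin.succ j)),
      h4 (fun j => ν (Fin.succ j)) (fun j => K (Fin.succ j)), h5]

end Pool.Agent.Y251.HB
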