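import Mathlib
import Pool.Agent.Y251.HB.E
import Pool.Agent.Y251.HB.G
set_option autoImplicit false
set_option linter.unusedSectionVars false

/-! # Holomorphic functions in products of domains -/

namespace Pool.Agent.Y251.HB

open MeasureTheory Set Metric Complex Filter
open Pool.Agent.Y251.CP (dbar fatou_le)
open Pool.Agent.TH277.HT (ch ch_norm ch_enorm ch_cont EE EE_meas)
open scoped ENNReal NNReal ComplexConjugate Topology

/-- domains with suitable cut-offs -/
structure Good (q : ℝ) (A : ℝ≥0) (D : Set ℂ) : Prop where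
  op : IsOpen D
  sub : D ⊆ Qc
  ex : ∃ (χ : ℕ → ℂ → ℂ) (ν : ℕ → Measure ℂ) (σ : ℕ → ℂ → ℂ),
    (∀ k, Measurable (χ k)) ∧ (∀ k z, ‖χ k z‖ ≤ 1) ∧ (∀ k z, z ∉ D → χ k z = 0) ∧
    (∀ z ∈ D, Tendsto (fun k => χ k z) atTop (𝓝 1)) ∧ (∀ k, PotLe q A (ν k)) ∧
    (∀ k, Measurable (σ k)) ∧ (∀ k z, ‖σ k z‖ ≤ 1) ∧ (∀ k z, z ∉ D → σ k z = 0) ∧
    ∀ k (g : ℂ → ℂ), DifferentiableOn ℂ g D → ∀ φ : ℂ → ℂ,
      ContDiff ℝ ((⊤ : ℕ∞) : WithTop ℕ∞) φ → HasCompactSupport φ →
      ∫ z, (χ k z * dbar φ z) * g z = ∫ z, (-(φ z * σ k z)) * g z ∂(ν k)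

lemma dbar_int {φ : ℂ → ℂ} (hφ : ContDiff ℝ ((⊤ : ℕ∞) : WithTop ℕ∞) φ) (hc : HasCompactSupport φ) :
    Continuous (dbar φ) ∧ HasCompactSupport (dbar φ) := by
  have h1 : Continuous (fderiv ℝ φ) := hφ.continuous_fderiv (by simp)
  have h2 : HasCompactSupport (fderiv ℝ φ) := hc.fderiv ℝ
  constructor
  · unfold dbar
    fun_prop
  · apply h2.mono'
    intro z hz
    apply subset_tsupport
    rw [Function.mem_support] at hz ⊢
    intro h
    apply hz
    unfold dbar
    rw [h]
    simp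

variable {m₁ m₂ n : ℕ}
variable {H : Type} [NormedAddCommGroup H] [InnerProductSpace ℂ H] [CompleteSpace H]

/-- the function on the product of domains -/
noncomputable def GD (D : Fin m₂ → Set ℂ) (σ : (Fin m₂ → ℂ) → ℂ)
    (M : ContinuousMultilinearMap ℂ (fun _ : Fin m₁ => H) ℂ)
    (a : Fin m₁ → (Fin m₂ → ℂ) × ℝ → H) (p : (Fin m₁ → ℝ) × (Fin m₂ → ℂ)) : ℂ :=
  (Set.pi univ D).indicator (fun z => σ z * sM M a z p.1) p.2

lemma GD_meas {D : Fin m₂ → Set ℂ} (hD : ∀ j, IsOpen (D j)) {σ : (Fin m₂ → ℂ) → ℂ} (hσ : Measurable σ)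
    (M : ContinuousMultilinearMap ℂ (fun _ : Fin m₁ => H) ℂ)
    {a : Fin m₁ → (Fin m₂ → ℂ) × ℝ → H} (ha : ∀ i, StronglyMeasurable (a i)) :
    Measurable (GD D σ M a) := by
  have h1 : MeasurableSet (Set.pi univ D) := (isOpen_set_pi finite_univ fun j _ => hD j).measurableSet
  have h2 : Measurable fun p : (Fin m₁ → ℝ) × (Fin m₂ → ℂ) => σ p.2 * sM M a p.2 p.1 := by
    apply (hσ.comp measurable_snd).mul
    exact ((sM_meas M ha).comp_measurable (by fun_prop :
      Measurable fun q : (Fin m₁ → ℝ) × (Fin m₂ → ℂ) => (q.2, q.1))).measurable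
  have h3 : GD D σ M a = (Prod.snd ⁻¹' (Set.pi univ D)).indicator
      fun p : (Fin m₁ → ℝ) × (Fin m₂ → ℂ) => σ p.2 * sM M a p.2 p.1 := by
    ext p
    unfold GD
    by_cases h : p.2 ∈ Set.pi univ D
    · rw [indicator_of_mem h, indicator_of_mem (show p ∈ Prod.snd ⁻¹' (Set.pi univ D) from h)]
    · rw [indicator_of_notMem h, indicator_of_notMem (show p ∉ Prod.snd ⁻¹' (Set.pi univ D) from h)]
  rw [h3]
  exact h2.indicator (measurable_snd h1)

lemma GD_le {D : Fin m₂ → Set ℂ} {σ : (Fin m₂ → ℂ) → ℂ} (hσ1 : ∀ z, ‖σ z‖ ≤ 1)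
    (M : ContinuousMultilinearMap ℂ (fun _ : Fin m₁ => H) ℂ) (hM : ‖M‖ ≤ 1)
    {a : Fin m₁ → (Fin m₂ → ℂ) × ℝ → H} (hb : ∀ i p, ‖a i p‖ ≤ 1)
    (p : (Fin m₁ → ℝ) × (Fin m₂ → ℂ)) : ‖GD D σ M a p‖ ≤ 1 := by
  unfold GD
  by_cases h : p.2 ∈ Set.pi univ D
  · rw [indicator_of_mem h, norm_mul]
    calc ‖σ p.2‖ * ‖sM M a p.2 p.1‖ ≤ 1 * 1 :=
          mul_le_mul (hσ1 _) (sM_le M hM hb _ _) (norm_nonneg _) zero_le_one
      _ = 1 := one_mul 1
  · rw [indicator_of_notMem h, norm_zero]
    exact zero_le_one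

/-- the mixed derivative of the function with cut-offs -/
lemma mixed_of {D : Fin m₂ → Set ℂ} (hD : ∀ j, IsOpen (D j)) {F : (Fin m₂ → ℂ) → ℂ}
    (hF : Measurable F) {B : ℝ} (hB : ∀ z, ‖F z‖ ≤ B) (hd : DifferentiableOn ℂ F (Set.pi univ D))
    (χ : Fin m₂ → ℂ → ℂ) (ν : Fin m₂ → Measure ℂ) [∀ j, IsFiniteMeasure (ν j)] (σ : Fin m₂ → ℂ → ℂ)
    (hχ : ∀ j, Measurable (χ j)) (hχ1 : ∀ j z, ‖χ j z‖ ≤ 1) (hχ0 : ∀ j z, z ∉ D j → χ j z = 0)
    (hσ : ∀ j, Measurable (σ j)) (hσ1 : ∀ j z, ‖σ j z‖ ≤ 1) (hσ0 : ∀ j z, z ∉ D j → σ j z = 0)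
    (hid : ∀ j (g : ℂ → ℂ), DifferentiableOn ℂ g (D j) → ∀ φ : ℂ → ℂ,
      ContDiff ℝ ((⊤ : ℕ∞) : WithTop ℕ∞) φ → HasCompactSupport φ →
      ∫ z, (χ j z * dbar φ z) * g z = ∫ z, (-(φ z * σ j z)) * g z ∂(ν j)) :
    MixedDbar ν (fun z => (∏ j, χ j (z j)) * (Set.pi univ D).indicator F z)
      (fun z => (∏ j, σ j (z j)) * F z) := by
  intro φ hφ hφc
  have hPm : MeasurableSet (Set.pi univ D) := (isOpen_set_pi finite_univ fun j _ => hD j).measurableSet
  have hFi : Measurable ((Set.pi univ D).indicator F) := hF.indicator hPm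
  have hFB : ∀ z, ‖(Set.pi univ D).indicator F z‖ ≤ B := by
    intro z
    exact (norm_indicator_le_norm_self _ _).trans (hB z)
  have hP : ∀ j, Integrable (fun w => χ j w * dbar (φ j) w) := by
    intro j
    obtain ⟨h1, h2⟩ := dbar_int (hφ j) (hφc j)
    exact (h1.integrable_of_hasCompactSupport h2).bdd_mul (c := 1) (hχ j).aestronglyMeasurable
      (ae_of_all _ fun w => hχ1 j w)
  have hK : ∀ j, Integrable (fun w => -(φ j w * σ j w)) (ν j) := by
    intro j
    apply Integrable.neg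
    exact ((hφ j).continuous.integrable_of_hasCompactSupport (hφc j)).mul_bdd (c := 1)
      (hσ j).aestronglyMeasurable (ae_of_all _ fun w => hσ1 j w)
  have key := multi (fun _ : Fin m₂ => (volume : Measure ℂ)) ν (fun j w => χ j w * dbar (φ j) w)
    (fun j w => -(φ j w * σ j w)) hP hK _ hFi B hFB (by
      intro j z
      by_cases hz : ∀ i, i ≠ j → z i ∈ D i
      · have hmem : ∀ w, Function.update z j w ∈ Set.pi univ D ↔ w ∈ D j := by
          intro w
          constructor
          · intro h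
            simpa using h j (mem_univ j)
          · intro h i _
            by_cases hi : i = j
            · subst hi
              simpa using h
            · rw [Function.update_of_ne hi]
              exact hz i hi
        have hg : DifferentiableOn ℂ (fun w => F (Function.update z j w)) (D j) := by
          have h1 : Differentiable ℂ fun w : ℂ => Function.update z j w := by
            rw [differentiable_pi]
            intro i
            by_cases hi : i = j
            · subst hi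
              simp
            · simp only [Function.update_of_ne hi]
              exact differentiable_const _
          exact hd.comp h1.differentiableOn fun w hw => (hmem w).2 hw
        have h2 := hid j _ hg (φ j) (hφ j) (hφc j)
        have e1 : ∀ w, (χ j w * dbar (φ j) w) * (Set.pi univ D).indicator F (Function.update z j w) =
            (χ j w * dbar (φ j) w) * F (Function.update z j w) := by
          intro w
          by_cases hw : w ∈ D j
          · rw [indicator_of_mem ((hmem w).2 hw)]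
          · rw [hχ0 j w hw]
            simp
        have e2 : ∀ w, (-(φ j w * σ j w)) * (Set.pi univ D).indicator F (Function.update z j w) =
            (-(φ j w * σ j w)) * F (Function.update z j w) := by
          intro w
          by_cases hw : w ∈ D j
          · rw [indicator_of_mem ((hmem w).2 hw)]
          · rw [hσ0 j w hw]
            simp
        simp only [e1, e2]
        exact h2
      · push Not at hz
        obtain ⟨i, hi, hi2⟩ := hz
        have e1 : ∀ w, (Set.pi univ D).indicator F (Function.update z j w) = 0 := by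
          intro w
          apply indicator_of_notMem
          intro h
          apply hi2
          have := h i (mem_univ i)
          rwa [Function.update_of_ne hi] at this
        simp only [e1, mul_zero, integral_zero])
  have hl : ∫ z, ((∏ j, χ j (z j)) * (Set.pi univ D).indicator F z) * ∏ j, dbar (φ j) (z j) =
      ∫ z, (∏ j, (χ j (z j) * dbar (φ j) (z j))) * (Set.pi univ D).indicator F z := by
    apply integral_congr_ae
    refine ae_of_all _ fun z => ?_
    simp only
    rw [Finset.prod_mul_distrib]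
    ring
  rw [hl, volume_pi, key, ← integral_const_mul]
  apply integral_congr_ae
  refine ae_of_all _ fun z => ?_
  simp only
  have e3 : ∏ j, (-(φ j (z j) * σ j (z j))) = (-1) ^ m₂ * ((∏ j, φ j (z j)) * ∏ j, σ j (z j)) := by
    simp only [neg_eq_neg_one_mul (φ _ _ * σ _ _)]
    rw [Finset.prod_mul_distrib, Finset.prod_mul_distrib, Finset.prod_const, Finset.card_univ,
      Fintype.card_fin]
  rw [e3]
  by_cases hz : z ∈ Set.pi univ D
  · rw [indicator_of_mem hz]
    ring
  · rw [indicator_of_notMem hz]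
    have : ∃ j, z j ∉ D j := by
      by_contra hc
      push Not at hc
      exact hz fun j _ => hc j
    obtain ⟨j, hj⟩ := this
    have h0 : ∏ j, σ j (z j) = 0 := Finset.prod_eq_zero (Finset.mem_univ j) (hσ0 j _ hj)
    rw [h0]
    ring

/-- **the estimate for holomorphic functions on products of domains** -/
theorem dom (m₁ m₂ n : ℕ) (hm₂ : 1 ≤ m₂) (hn : n = m₁ + 2 * m₂) (q : ℝ)
    (hq : 2 * ((n : ℝ) + 1) / n < q) (A : ℝ≥0) :
    ∃ C : ℝ≥0, ∀ (e : Fin m₁ ⊕ (Fin m₂ ⊕ Fin m₂) ≃ Fin n) (H : Type) [NormedAddCommGroup H]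
      [InnerProductSpace ℂ H] [CompleteSpace H]
      (M : ContinuousMultilinearMap ℂ (fun _ : Fin m₁ => H) ℂ)
      (a : Fin m₁ → (Fin m₂ → ℂ) × ℝ → H) (σ : (Fin m₂ → ℂ) → ℂ) (D : Fin m₂ → Set ℂ)
      (τ : Fin m₂ → ℝ),
      ‖M‖ ≤ 1 → (∀ i, StronglyMeasurable (a i)) → (∀ i p, ‖a i p‖ ≤ 1) →
      Measurable σ → (∀ z, ‖σ z‖ ≤ 1) → (∀ j, Good q A (D j)) →
      (∀ y ∈ Icc (-1 : Fin m₁ → ℝ) 1,
        DifferentiableOn ℂ (fun z => σ z * sM M a z y) (Set.pi univ D)) →
      ∫⁻ y : (Fin n → ℝ) × ℝ, ‖EE (fun ξ => chirp τ (Psi e ξ).2 * GD D σ M a (Psi e ξ)) y‖ₑ ^ q ≤ C := by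
  obtain ⟨C, hC⟩ := main m₁ m₂ n hm₂ hn q hq A
  have hn0 : (0 : ℝ) < n := by
    have : 0 < n := by omega
    exact_mod_cast this
  have hq2 : 2 < q := by
    have h1 : 2 < 2 * ((n : ℝ) + 1) / n := by
      rw [lt_div_iff₀ hn0]
      linarith
    linarith
  have hq0 : 0 < q := by linarith
  refine ⟨C, ?_⟩
  intro e H _ _ _ M a σ D τ hM ha hb hσ hσ1 hD hhol
  choose χ ν s hχ hχ1 hχ0 hχl hν hs hs1 hs0 hid using fun j => (hD j).ex
  have hop : ∀ j, IsOpen (D j) := fun j => (hD j).op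
  have hfin : ∀ j k, IsFiniteMeasure (ν j k) := fun j k => ⟨((hν j k).mass hq2).trans_lt
    (ENNReal.mul_lt_top (by norm_num) ENNReal.coe_lt_top)⟩
  have hGm := GD_meas hop hσ M ha
  have hG1 := GD_le (D := D) hσ1 M hM hb
  set cut : (Fin m₁ → ℝ) × (Fin m₂ → ℂ) → ℂ :=
    fun p => (Icc (-1 : Fin m₁ → ℝ) 1).indicator (fun _ => (1 : ℂ)) p.1 with hcut
  have hcutm : Measurable cut := (measurable_const.indicator measurableSet_Icc).comp measurable_fst
  set g : ℕ → (Fin m₁ → ℝ) × (Fin m₂ → ℂ) → ℂ := fun k p =>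
    cut p * ((∏ j, χ j k (p.2 j)) * GD D σ M a p) with hg
  have hgm : ∀ k, Measurable (g k) := by
    intro k
    apply hcutm.mul
    apply Measurable.mul _ hGm
    apply Finset.measurable_prod
    intro j _
    exact (hχ j k).comp (by fun_prop)
  have hprod1 : ∀ k (z : Fin m₂ → ℂ), ‖∏ j, χ j k (z j)‖ ≤ 1 := by
    intro k z
    rw [norm_prod]
    exact Finset.prod_le_one (fun j _ => norm_nonneg _) fun j _ => hχ1 j k _
  have hin : ∀ k (p : (Fin m₁ → ℝ) × (Fin m₂ → ℂ)), ‖(∏ j, χ j k (p.2 j)) * GD D σ M a p‖ ≤ 1 := by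
    intro k p
    rw [norm_mul]
    calc ‖∏ j, χ j k (p.2 j)‖ * ‖GD D σ M a p‖ ≤ 1 * 1 :=
          mul_le_mul (hprod1 k _) (hG1 p) (norm_nonneg _) zero_le_one
      _ = 1 := one_mul 1
  have hGD0 : ∀ p : (Fin m₁ → ℝ) × (Fin m₂ → ℂ), (∃ j, p.2 j ∉ Qc) → GD D σ M a p = 0 := by
    rintro p ⟨j, hj⟩
    unfold GD
    apply indicator_of_notMem
    intro h
    exact hj ((hD j).sub (h j (mem_univ j)))
  have hg0 : ∀ k p, (∃ j, p.2 j ∉ Qc) → g k p = 0 := by
    intro k p hp
    simp only [hg]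
    rw [hGD0 p hp]
    simp
  have hgi : ∀ k, Integrable (g k) := by
    intro k
    set S : Set ((Fin m₁ → ℝ) × (Fin m₂ → ℂ)) := (Icc (-1 : Fin m₁ → ℝ) 1) ×ˢ closedBall (0 : Fin m₂ → ℂ) 2
      with hS
    have hSm : MeasurableSet S := measurableSet_Icc.prod measurableSet_closedBall
    have hSv : volume S < ∞ := (isCompact_Icc.prod (isCompact_closedBall _ _)).measure_lt_top
    have h1 : IntegrableOn (g k) S := by
      apply IntegrableOn.of_bound hSv (hgm k).aestronglyMeasurable 1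
      refine ae_of_all _ fun p => ?_
      simp only [hg]
      rw [norm_mul]
      have h2 : ‖cut p‖ ≤ 1 := by
        simp only [hcut]
        refine (norm_indicator_le_norm_self _ _).trans ?_
        simp
      calc ‖cut p‖ * ‖(∏ j, χ j k (p.2 j)) * GD D σ M a p‖ ≤ 1 * 1 :=
            mul_le_mul h2 (hin k p) (norm_nonneg _) zero_le_one
        _ = 1 := one_mul 1
    rwa [integrableOn_iff_integrable_of_support_subset] at h1
    intro p hp
    by_contra hc
    apply hp
    by_cases h3 : p.1 ∈ Icc (-1 : Fin m₁ → ℝ) 1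
    · apply hg0 k p
      by_contra hc2
      push Not at hc2
      apply hc
      refine ⟨h3, ?_⟩
      rw [mem_closedBall, dist_zero_right, pi_norm_le_iff_of_nonneg (by norm_num)]
      intro j
      have := Qc_norm (hc2 j)
      linarith
    · simp only [hg, hcut]
      rw [indicator_of_notMem h3, zero_mul]
  have hmix : ∀ k, ∀ y ∈ Icc (-1 : Fin m₁ → ℝ) 1, MixedDbar (fun j => ν j k) (fun z => g k (y, z))
      fun z => (fun z => (∏ j, s j k (z j)) * σ z) z * sM M a z y := by
    intro k y hy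
    have hFm : Measurable fun z : Fin m₂ → ℂ => σ z * sM M a z y :=
      hσ.mul ((sM_meas M ha).comp_measurable (by fun_prop :
        Measurable fun z : Fin m₂ → ℂ => (z, y))).measurable
    have hFB : ∀ z : Fin m₂ → ℂ, ‖σ z * sM M a z y‖ ≤ 1 := by
      intro z
      rw [norm_mul]
      calc ‖σ z‖ * ‖sM M a z y‖ ≤ 1 * 1 :=
            mul_le_mul (hσ1 _) (sM_le M hM hb _ _) (norm_nonneg _) zero_le_one
        _ = 1 := one_mul 1
    have h1 := mixed_of hop hFm hFB (hhol y hy) (fun j => χ j k) (fun j => ν j k) (fun j => s j k)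
      (fun j => hχ j k) (fun j => hχ1 j k) (fun j => hχ0 j k) (fun j => hs j k) (fun j => hs1 j k)
      (fun j => hs0 j k) (fun j => hid j k)
    have e1 : (fun z => g k (y, z)) = fun z => (∏ j, χ j k (z j)) *
        (Set.pi univ D).indicator (fun z => σ z * sM M a z y) z := by
      ext z
      simp only [hg, hcut]
      rw [indicator_of_mem hy, one_mul]
      rfl
    have e2 : (fun z => (fun z => (∏ j, s j k (z j)) * σ z) z * sM M a z y) =
        fun z => (∏ j, s j k (z j)) * (σ z * sM M a z y) := by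
      ext z
      ring
    rw [e1, e2]
    exact h1
  have hsσ : ∀ k, Measurable fun z : Fin m₂ → ℂ => (∏ j, s j k (z j)) * σ z := by
    intro k
    apply Measurable.mul _ hσ
    apply Finset.measurable_prod
    intro j _
    exact (hs j k).comp (measurable_pi_apply j)
  have hsσ1 : ∀ k (z : Fin m₂ → ℂ), ‖(∏ j, s j k (z j)) * σ z‖ ≤ 1 := by
    intro k z
    rw [norm_mul, norm_prod]
    calc (∏ j, ‖s j k (z j)‖) * ‖σ z‖ ≤ 1 * 1 :=
          mul_le_mul (Finset.prod_le_one (fun j _ => norm_nonneg _) fun j _ => hs1 j k _) (hσ1 _)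
            (norm_nonneg _) zero_le_one
      _ = 1 := one_mul 1
  have hk : ∀ k, ∫⁻ y : (Fin n → ℝ) × ℝ, ‖EE (fun ξ => chirp τ (Psi e ξ).2 * g k (Psi e ξ)) y‖ₑ ^ q ≤ C :=
    fun k => hC e H M a _ (fun j => ν j k) τ (g k) hM ha hb (hsσ k) (hsσ1 k) (fun j => hν j k) (hgm k)
      (hgi k) (hg0 k) (hmix k)
  -- the limit
  have hfm : ∀ k, StronglyMeasurable fun ξ : Fin n → ℝ => chirp τ (Psi e ξ).2 * g k (Psi e ξ) := by
    intro k
    apply Measurable.stronglyMeasurable
    exact ((chirp_cont τ).measurable.comp (measurable_snd.comp (Psi_mp e).measurable)).mul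
      ((hgm k).comp (Psi_mp e).measurable)
  apply fatou_le volume (fun k y => ‖EE (fun ξ => chirp τ (Psi e ξ).2 * g k (Psi e ξ)) y‖ₑ ^ q) _
    (fun k => (EE_meas (hfm k)).enorm.pow_const q) C hk
  refine ae_of_all _ fun y => ?_
  have hlim : Tendsto (fun k => EE (fun ξ => chirp τ (Psi e ξ).2 * g k (Psi e ξ)) y) atTop
      (𝓝 (EE (fun ξ => chirp τ (Psi e ξ).2 * GD D σ M a (Psi e ξ)) y)) := by
    unfold EE
    have hv : volume (Icc (-1 : Fin n → ℝ) 1) < ∞ := isCompact_Icc.measure_lt_top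
    apply tendsto_integral_of_dominated_convergence (fun _ => (1 : ℝ))
    · intro k
      apply AEStronglyMeasurable.mul _ (hfm k).aestronglyMeasurable
      exact (ch_cont.comp (by fun_prop : Continuous fun ξ : Fin n → ℝ =>
        (∑ j, ξ j * y.1 j + (∑ j, ξ j ^ 2) * y.2))).aestronglyMeasurable
    · exact integrableOn_const hv.ne enorm_ne_top
    · intro k
      refine ae_of_all _ fun ξ => ?_
      rw [norm_mul, ch_norm, one_mul, norm_mul, chirp_norm, one_mul]
      simp only [hg]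
      rw [norm_mul]
      have h2 : ‖cut (Psi e ξ)‖ ≤ 1 := by
        simp only [hcut]
        refine (norm_indicator_le_norm_self _ _).trans ?_
        simp
      calc ‖cut (Psi e ξ)‖ * ‖(∏ j, χ j k ((Psi e ξ).2 j)) * GD D σ M a (Psi e ξ)‖ ≤ 1 * 1 :=
            mul_le_mul h2 (hin k _) (norm_nonneg _) zero_le_one
        _ = 1 := one_mul 1
    · filter_upwards [ae_restrict_mem measurableSet_Icc] with ξ hξ
      apply Tendsto.const_mul
      apply Tendsto.const_mul
      have hy : (Psi e ξ).1 ∈ Icc (-1 : Fin m₁ → ℝ) 1 := ⟨fun i => hξ.1 _, fun i => hξ.2 _⟩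
      simp only [hg, hcut]
      rw [indicator_of_mem hy]
      simp only [one_mul]
      by_cases h : (Psi e ξ).2 ∈ Set.pi univ D
      · have h1 : Tendsto (fun k => (∏ j, χ j k ((Psi e ξ).2 j)) * GD D σ M a (Psi e ξ)) atTop
            (𝓝 ((∏ _j : Fin m₂, (1 : ℂ)) * GD D σ M a (Psi e ξ))) := by
          apply Tendsto.mul_const
          apply tendsto_finsetProd
          intro j _
          exact hχl j _ (h j (mem_univ j))
        simpa using h1
      · have h0 : GD D σ M a (Psi e ξ) = 0 := by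
          unfold GD
          exact indicator_of_notMem h _
        rw [h0]
        simp
  exact ((ENNReal.continuous_rpow_const (y := q)).tendsto _).comp (hlim.enorm)

end Pool.Agent.Y251.HB
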