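import Mathlib
import Pool.Agent.Y251.HB.H
import Pool.Agent.Y251.CP.D9
set_option autoImplicit false

/-! # Discs are good domains -/

namespace Pool.Agent.Y251.HB

open MeasureTheory Set Metric Complex Filter
open Pool.Agent.Y251.CP (dbar cnu disc_wd circ_pot)
open scoped ENNReal NNReal ComplexConjugate Topology

lemma Qc_ball_rad {c : ℂ} {r : ℝ} (hsub : ball c r ⊆ Qc) : r ≤ 1 := by
  by_contra h
  push Not at h
  have h1 : c + 1 * 1 ∈ Qc ∧ c + (-1) * 1 ∈ Qc := by
    constructor
    · apply hsub
      rw [mem_ball, dist_eq_norm]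
      simpa using h
    · apply hsub
      rw [mem_ball, dist_eq_norm]
      simpa using h
  set s : ℝ := (1 + r) / 2 with hs
  have hs1 : 1 < s := by rw [hs]; linarith
  have hsr : s < r := by rw [hs]; linarith
  have h2 : c + (s : ℂ) ∈ Qc := by
    apply hsub
    rw [mem_ball, dist_eq_norm, add_sub_cancel_left, norm_real, Real.norm_of_nonneg (by linarith)]
    exact hsr
  have h3 : c - (s : ℂ) ∈ Qc := by
    apply hsub
    rw [mem_ball, dist_eq_norm, sub_sub_cancel_left, norm_neg, norm_real, Real.norm_of_nonneg (by linarith)]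
    exact hsr
  have h4 := abs_le.1 h2.1
  have h5 := abs_le.1 h3.1
  simp only [add_re, sub_re, ofReal_re] at h4 h5
  linarith [h4.2, h5.1]

theorem disc_good {q : ℝ} (hq : 2 < q) : ∃ A : ℝ≥0, ∀ (c : ℂ) (r : ℝ), 0 < r → ball c r ⊆ Qc →
    Good q A (ball c r) := by
  obtain ⟨C, hC⟩ := circ_pot (be_pos hq).le (be_lt hq)
  have hb0 := (be_pos hq).le
  have hb1 := be_lt hq
  refine ⟨C, ?_⟩
  intro c r hr hsub
  have hr1 := Qc_ball_rad hsub
  set ρ : ℕ → ℝ := fun k => r * (1 - ((k : ℝ) + 2)⁻¹) with hρ
  have hρ0 : ∀ k, 0 < ρ k := by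
    intro k
    have h1 : ((k : ℝ) + 2)⁻¹ < 1 := by
      apply inv_lt_one_of_one_lt₀
      have : (0 : ℝ) ≤ k := Nat.cast_nonneg k
      linarith
    simp only [hρ]
    apply mul_pos hr
    linarith
  have hρr : ∀ k, ρ k < r := by
    intro k
    have h1 : 0 < ((k : ℝ) + 2)⁻¹ := by positivity
    simp only [hρ]
    nlinarith
  have hρl : Tendsto ρ atTop (𝓝 r) := by
    have h1 : Tendsto (fun k : ℕ => ((k : ℝ) + 2)⁻¹) atTop (𝓝 0) := by
      have h2 := (tendsto_natCast_atTop_atTop (R := ℝ)).atTop_add (tendsto_const_nhds (x := (2 : ℝ)))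
      exact tendsto_inv_atTop_zero.comp h2
    have h3 := (h1.const_sub 1).const_mul r
    rw [sub_zero, mul_one] at h3
    exact h3
  have hon : ∀ k (θ : ℝ), c + ρ k * cexp (θ * I) ∈ ball c r := by
    intro k θ
    rw [mem_ball, dist_eq_norm, add_sub_cancel_left, norm_mul, norm_exp_ofReal_mul_I,
      mul_one, norm_real, Real.norm_of_nonneg (hρ0 k).le]
    exact hρr k
  refine ⟨isOpen_ball, hsub, fun k => (ball c (ρ k)).indicator fun _ => (1 : ℂ),
    fun k => ENNReal.ofReal (ρ k) • cnu c (ρ k),
    fun k => (closedBall c (ρ k)).indicator fun z => -(1 / 2) * ((z - c) / ρ k), ?_, ?_, ?_, ?_, ?_,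
    ?_, ?_, ?_, ?_⟩
  · exact fun k => measurable_const.indicator measurableSet_ball
  · intro k z
    refine (norm_indicator_le_norm_self _ _).trans ?_
    simp
  · intro k z hz
    apply indicator_of_notMem
    exact fun h => hz (ball_subset_ball (hρr k).le h)
  · intro z hz
    rw [mem_ball] at hz
    have h1 : ∀ᶠ k in atTop, dist z c < ρ k := hρl.eventually_const_lt hz
    apply tendsto_const_nhds.congr'
    filter_upwards [h1] with k hk
    rw [indicator_of_mem (mem_ball.2 hk)]
  · intro k
    have hw : Continuous fun θ : ℝ => c + ρ k * cexp (θ * I) := by fun_prop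
    constructor
    · apply Measure.ae_smul_measure
      unfold cnu
      rw [ae_map_iff hw.measurable.aemeasurable (measurableSet_le measurable_norm measurable_const)]
      refine ae_of_all _ fun θ => ?_
      have := Qc_norm (hsub (hon k θ))
      linarith
    · intro z
      rw [lintegral_smul_measure]
      unfold cnu
      rw [lintegral_map (by fun_prop) hw.measurable]
      have h1 : ∀ θ : ℝ, (‖z - (c + ρ k * cexp (θ * I))‖ₑ⁻¹) ^ be q =
          (‖(z - c) - ρ k * cexp (θ * I)‖ₑ⁻¹) ^ be q := by
        intro θ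
        rw [sub_sub]
      simp only [h1, smul_eq_mul]
      calc ENNReal.ofReal (ρ k) * ∫⁻ θ in Ioc (-Real.pi) Real.pi,
            (‖(z - c) - ρ k * cexp (θ * I)‖ₑ⁻¹) ^ be q
          ≤ ENNReal.ofReal (ρ k) * (C * ENNReal.ofReal (ρ k ^ (-be q))) := by
            gcongr
            exact hC (ρ k) (hρ0 k) (z - c)
        _ = C * ENNReal.ofReal (ρ k * ρ k ^ (-be q)) := by
            rw [ENNReal.ofReal_mul (hρ0 k).le]
            ring
        _ ≤ C * 1 := by
            gcongr
            rw [ENNReal.ofReal_le_one]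
            have e : ρ k * ρ k ^ (-be q) = ρ k ^ (1 - be q) := by
              rw [sub_eq_add_neg, Real.rpow_add (hρ0 k), Real.rpow_one]
            rw [e]
            exact Real.rpow_le_one (hρ0 k).le ((hρr k).le.trans hr1) (by linarith)
        _ = C := mul_one _
  · intro k
    exact Measurable.indicator (by fun_prop) measurableSet_closedBall
  · intro k z
    simp only
    by_cases hz : z ∈ closedBall c (ρ k)
    · rw [indicator_of_mem hz]
      rw [mem_closedBall, dist_eq_norm] at hz
      rw [norm_mul, norm_div, norm_neg, norm_real, Real.norm_of_nonneg (hρ0 k).le]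
      have h1 : ‖z - c‖ / ρ k ≤ 1 := (div_le_one (hρ0 k)).2 hz
      have h2 : 0 ≤ ‖z - c‖ / ρ k := by
        have := hρ0 k
        positivity
      norm_num
      linarith
    · rw [indicator_of_notMem hz, norm_zero]
      exact zero_le_one
  · intro k z hz
    apply indicator_of_notMem
    exact fun h => hz (closedBall_subset_ball (hρr k) h)
  · intro k g hg φ hφ hφc
    have h1 := disc_wd (hρ0 k) (hρr k) hg φ hφ hφc
    have e1 : ∫ z, ((ball c (ρ k)).indicator (fun _ => (1 : ℂ)) z * dbar φ z) * g z =
        ∫ z, (ball c (ρ k)).indicator g z * dbar φ z := by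
      apply integral_congr_ae
      refine ae_of_all _ fun z => ?_
      simp only
      by_cases hz : z ∈ ball c (ρ k)
      · rw [indicator_of_mem hz, indicator_of_mem hz]
        ring
      · rw [indicator_of_notMem hz, indicator_of_notMem hz]
        ring
    rw [e1, h1, integral_smul_measure, ENNReal.toReal_ofReal (hρ0 k).le, ← integral_neg,
      ← integral_smul]
    apply integral_congr_ae
    refine ae_of_all _ fun z => ?_
    have hne : (ρ k : ℂ) ≠ 0 := by exact_mod_cast (hρ0 k).ne'
    simp only [real_smul]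
    by_cases hz : z ∈ closedBall c (ρ k)
    · rw [indicator_of_mem hz, indicator_of_mem hz]
      field_simp
    · rw [indicator_of_notMem hz, indicator_of_notMem hz]
      ring

end Pool.Agent.Y251.HB
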