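import Mathlib
import Pool.Agent.Y251.HB.H
import Pool.Agent.Y251.HB.F
import Pool.Agent.Y251.CP.D9
set_option autoImplicit false

/-! # Domains whose boundary has linear growth are good domains -/

namespace Pool.Agent.Y251.HB

open MeasureTheory Set Metric Complex Filter
open Pool.Agent.Y251.CP (HasDbar dbar green hasDbar_of_holo)
open scoped ENNReal NNReal ComplexConjugate Topology Convolution

/-- the Lipschitz cut-off -/
noncomputable def uc (D : Set ℂ) (ε : ℝ) (z : ℂ) : ℝ := min 1 (max 0 (infDist z Dᶜ / ε - 1))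

lemma uc_nonneg (D : Set ℂ) (ε : ℝ) (z : ℂ) : 0 ≤ uc D ε z :=
  le_min zero_le_one (le_max_left _ _)

lemma uc_le (D : Set ℂ) (ε : ℝ) (z : ℂ) : uc D ε z ≤ 1 := min_le_left _ _

lemma uc_lip (D : Set ℂ) {ε : ℝ} (hε : 0 < ε) (z w : ℂ) :
    |uc D ε z - uc D ε w| ≤ ‖z - w‖ / ε := by
  have h1 : |infDist z Dᶜ - infDist w Dᶜ| ≤ ‖z - w‖ := by
    rw [← dist_eq_norm, ← Real.dist_eq]
    exact (lipschitz_infDist_pt Dᶜ).dist_le_mul z w |>.trans (by simp)
  have h2 : |(infDist z Dᶜ / ε - 1) - (infDist w Dᶜ / ε - 1)| ≤ ‖z - w‖ / ε := by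
    have e : (infDist z Dᶜ / ε - 1) - (infDist w Dᶜ / ε - 1) = (infDist z Dᶜ - infDist w Dᶜ) / ε := by ring
    rw [e, abs_div, abs_of_pos hε]
    gcongr
  unfold uc
  refine le_trans ?_ h2
  set a := infDist z Dᶜ / ε - 1
  set b := infDist w Dᶜ / ε - 1
  have h3 : |min 1 (max 0 a) - min 1 (max 0 b)| ≤ |max 0 a - max 0 b| := by
    have := abs_min_sub_min_le_max (1 : ℝ) (max 0 a) 1 (max 0 b)
    simpa using this
  have h4 : |max 0 a - max 0 b| ≤ |a - b| := by
    have := abs_max_sub_max_le_max (0 : ℝ) a 0 b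
    simpa using this
  exact h3.trans h4

lemma uc_cont (D : Set ℂ) (ε : ℝ) : Continuous (uc D ε) := by
  unfold uc
  have : Continuous fun z => infDist z Dᶜ := continuous_infDist_pt _
  fun_prop

lemma uc_zero {D : Set ℂ} {ε : ℝ} (hε : 0 < ε) {z : ℂ} (h : infDist z Dᶜ ≤ ε) : uc D ε z = 0 := by
  unfold uc
  have h1 : infDist z Dᶜ / ε - 1 ≤ 0 := by
    rw [sub_nonpos, div_le_one hε]
    exact h
  rw [max_eq_left h1]
  exact min_eq_right zero_le_one

lemma uc_one {D : Set ℂ} {ε : ℝ} (hε : 0 < ε) {z : ℂ} (h : 2 * ε ≤ infDist z Dᶜ) : uc D ε z = 1 := by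
  unfold uc
  have h1 : 1 ≤ infDist z Dᶜ / ε - 1 := by
    have : 2 ≤ infDist z Dᶜ / ε := by
      rw [le_div_iff₀ hε]
      exact h
    linarith
  rw [max_eq_right (by linarith)]
  exact min_eq_left h1

lemma infDist_near {D : Set ℂ} (z w : ℂ) : |infDist z Dᶜ - infDist w Dᶜ| ≤ dist z w := by
  rw [← Real.dist_eq]
  exact (lipschitz_infDist_pt Dᶜ).dist_le_mul z w |>.trans (by simp)

/-- the smooth cut-off -/
theorem cutoff (D : Set ℂ) {ε : ℝ} (hε : 0 < ε) : ∃ χ : ℂ → ℝ,
    ContDiff ℝ ((⊤ : ℕ∞) : WithTop ℕ∞) χ ∧ (∀ z, |χ z| ≤ 1) ∧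
    (∀ z, infDist z Dᶜ ≤ ε / 2 → χ z = 0) ∧ (∀ z, 5 / 2 * ε ≤ infDist z Dᶜ → χ z = 1) ∧
    ∀ z w, |χ z - χ w| ≤ ‖z - w‖ / ε := by
  set φ : ContDiffBump (0 : ℂ) := ⟨ε / 4, ε / 2, by positivity, by linarith⟩ with hφ
  set ρ : ℂ → ℝ := φ.normed volume with hρ
  set χ : ℂ → ℝ := (ρ ⋆[ContinuousLinearMap.lsmul ℝ ℝ, volume] uc D ε) with hχ
  have hval : ∀ z, χ z = ∫ t, ρ t * uc D ε (z - t) := by
    intro z
    rw [hχ, convolution_def]
    rfl
  have hρc : Continuous ρ := φ.continuous_normed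
  have hρs : HasCompactSupport ρ := φ.hasCompactSupport_normed
  have hρ0 : ∀ t, 0 ≤ ρ t := φ.nonneg_normed
  have hρ1 : ∫ t, ρ t = 1 := φ.integral_normed
  have hρi : Integrable ρ := hρc.integrable_of_hasCompactSupport hρs
  have hint : ∀ z, Integrable fun t => ρ t * uc D ε (z - t) := by
    intro z
    apply hρi.mul_bdd (c := 1)
    · exact ((uc_cont D ε).comp (continuous_const.sub continuous_id)).aestronglyMeasurable
    · refine ae_of_all _ fun t => ?_
      rw [Real.norm_eq_abs, abs_of_nonneg (uc_nonneg _ _ _)]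
      exact uc_le _ _ _
  refine ⟨χ, ?_, ?_, ?_, ?_, ?_⟩
  · apply HasCompactSupport.contDiff_convolution_left _ hρs
    · exact φ.contDiff_normed
    · exact (uc_cont D ε).locallyIntegrable
  · intro z
    rw [hval, ← Real.norm_eq_abs]
    calc ‖∫ t, ρ t * uc D ε (z - t)‖ ≤ ∫ t, ρ t := by
          apply norm_integral_le_of_norm_le hρi
          refine ae_of_all _ fun t => ?_
          rw [norm_mul, Real.norm_of_nonneg (hρ0 t), Real.norm_of_nonneg (uc_nonneg _ _ _)]
          exact mul_le_of_le_one_right (hρ0 t) (uc_le _ _ _)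
      _ = 1 := hρ1
  · intro z hz
    have h0 : uc D ε z = 0 := uc_zero hε (by linarith)
    have h1 : χ z = uc D ε z := by
      rw [hχ]
      apply φ.normed_convolution_eq_right
      intro w hw
      rw [h0]
      apply uc_zero hε
      have h2 := abs_le.1 (infDist_near (D := D) w z)
      have h3 : dist w z < ε / 2 := hw
      linarith [h2.2]
    rw [h1, h0]
  · intro z hz
    have h0 : uc D ε z = 1 := uc_one hε (by linarith)
    have h1 : χ z = uc D ε z := by
      rw [hχ]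
      apply φ.normed_convolution_eq_right
      intro w hw
      rw [h0]
      apply uc_one hε
      have h2 := abs_le.1 (infDist_near (D := D) w z)
      have h3 : dist w z < ε / 2 := hw
      linarith [h2.1]
    rw [h1, h0]
  · intro z w
    rw [hval, hval, ← integral_sub (hint z) (hint w), ← Real.norm_eq_abs]
    calc ‖∫ t, (ρ t * uc D ε (z - t) - ρ t * uc D ε (w - t))‖ ≤ ∫ t, ρ t * (‖z - w‖ / ε) := by
          apply norm_integral_le_of_norm_le (hρi.mul_const _)
          refine ae_of_all _ fun t => ?_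
          rw [← mul_sub, norm_mul, Real.norm_of_nonneg (hρ0 t), Real.norm_eq_abs]
          apply mul_le_mul_of_nonneg_left _ (hρ0 t)
          have := uc_lip D hε (z - t) (w - t)
          rwa [sub_sub_sub_cancel_right] at this
      _ = ‖z - w‖ / ε := by rw [integral_mul_const, hρ1, one_mul]

/-- the neighbourhoods of the boundary have linear growth -/
def Reg (A : ℝ) (D : Set ℂ) : Prop :=
  ∀ (z : ℂ) (δ r : ℝ), 0 < δ → δ ≤ r →
    volume (ball z r ∩ cthickening δ (frontier D)) ≤ ENNReal.ofReal (A * r * δ)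

lemma Qc_sub {D : Set ℂ} (hsub : D ⊆ Qc) : D ⊆ closedBall (0 : ℂ) 2 := by
  intro z hz
  rw [mem_closedBall_zero_iff]
  have := Qc_norm (hsub hz)
  linarith

lemma Qc_ne {D : Set ℂ} (hsub : D ⊆ Qc) : (Dᶜ).Nonempty := by
  refine ⟨3, fun h => ?_⟩
  have := Qc_norm (hsub h)
  norm_num at this

lemma infDist_zero {D : Set ℂ} {z : ℂ} (hz : z ∉ D) : infDist z Dᶜ = 0 :=
  infDist_zero_of_mem hz

lemma good_fun {D : Set ℂ} (hsub : D ⊆ Qc) {ε : ℝ} (hε : 0 < ε) {h : ℂ → ℂ}
    (hc : ∀ z ∈ D, ContinuousAt h z) (h0 : ∀ w, infDist w Dᶜ < ε / 2 → h w = 0) :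
    Continuous h ∧ (∀ z, z ∉ D → h z = 0) ∧ Integrable h := by
  have hV : ∀ z, z ∉ D → h =ᶠ[𝓝 z] fun _ => 0 := by
    intro z hz
    have ho : IsOpen {w : ℂ | infDist w Dᶜ < ε / 2} := isOpen_lt (continuous_infDist_pt _) continuous_const
    have hm : z ∈ {w : ℂ | infDist w Dᶜ < ε / 2} := by
      show infDist z Dᶜ < ε / 2
      rw [infDist_zero hz]
      positivity
    filter_upwards [ho.mem_nhds hm] with w hw
    exact h0 w hw
  have h1 : Continuous h := by
    rw [continuous_iff_continuousAt]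
    intro z
    by_cases hz : z ∈ D
    · exact hc z hz
    · exact continuousAt_const.congr (hV z hz).symm
  have h2 : ∀ z, z ∉ D → h z = 0 := fun z hz => (hV z hz).eq_of_nhds
  refine ⟨h1, h2, h1.integrable_of_hasCompactSupport ?_⟩
  apply HasCompactSupport.intro' (K := closedBall (0 : ℂ) 2) (isCompact_closedBall 0 2) isClosed_closedBall
  intro z hz
  exact h2 z fun h => hz (Qc_sub hsub h)

/-- integration by parts with a cut-off -/
lemma parts {D : Set ℂ} (hop : IsOpen D) (hsub : D ⊆ Qc) {ε : ℝ} (hε : 0 < ε) {χ : ℂ → ℂ}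
    (hχ : ContDiff ℝ ((⊤ : ℕ∞) : WithTop ℕ∞) χ) (hχ0 : ∀ z, infDist z Dᶜ ≤ ε / 2 → χ z = 0)
    {g φ : ℂ → ℂ} (hg : DifferentiableOn ℂ g D) (hφ : ContDiff ℝ ((⊤ : ℕ∞) : WithTop ℕ∞) φ) :
    ∫ z, (χ z * dbar φ z) * g z = -∫ z, (φ z * dbar χ z) * g z := by
  have hdb : ∀ {ψ : ℂ → ℂ}, ContDiff ℝ ((⊤ : ℕ∞) : WithTop ℕ∞) ψ → ∀ z, HasDbar ψ (dbar ψ z) z :=
    fun hψ z => ⟨fderiv ℝ _ z, ((hψ.differentiable (by simp)) z).hasFDerivAt, rfl⟩
  have hcd : ∀ {ψ : ℂ → ℂ}, ContDiff ℝ ((⊤ : ℕ∞) : WithTop ℕ∞) ψ → Continuous (dbar ψ) := by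
    intro ψ hψ
    have h1 : Continuous (fderiv ℝ ψ) := hψ.continuous_fderiv (by simp)
    unfold dbar
    fun_prop
  have hχV : ∀ w, infDist w Dᶜ < ε / 2 → dbar χ w = 0 := by
    intro w hw
    have ho : IsOpen {w : ℂ | infDist w Dᶜ < ε / 2} := isOpen_lt (continuous_infDist_pt _) continuous_const
    have h1 : χ =ᶠ[𝓝 w] fun _ => 0 := by
      filter_upwards [ho.mem_nhds hw] with v hv
      exact hχ0 v (le_of_lt hv)
    unfold dbar
    rw [h1.fderiv_eq]
    simp
  have hgc : ∀ z ∈ D, ContinuousAt g z := fun z hz => (hg.differentiableAt (hop.mem_nhds hz)).continuousAt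
  obtain ⟨a1, a2, a3⟩ := good_fun hsub hε (h := fun z => (χ z * dbar φ z) * g z)
    (fun z hz => (hχ.continuous.continuousAt.mul (hcd hφ).continuousAt).mul (hgc z hz))
    (fun w hw => by rw [hχ0 w hw.le]; ring)
  obtain ⟨b1, b2, b3⟩ := good_fun hsub hε (h := fun z => (φ z * dbar χ z) * g z)
    (fun z hz => (hφ.continuous.continuousAt.mul (hcd hχ).continuousAt).mul (hgc z hz))
    (fun w hw => by rw [hχV w hw]; ring)
  have hder : ∀ z ∈ closedBall (0 : ℂ) 3, HasDbar (fun z => χ z * φ z * g z)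
      ((χ z * dbar φ z) * g z + (φ z * dbar χ z) * g z) z := by
    intro z _
    by_cases hz : z ∈ D
    · have h2 : DifferentiableAt ℂ g z := hg.differentiableAt (hop.mem_nhds hz)
      exact (((hdb hχ z).mul (hdb hφ z)).mul (hasDbar_of_holo h2)).congr (by ring)
    · have ho : IsOpen {w : ℂ | infDist w Dᶜ < ε / 2} := isOpen_lt (continuous_infDist_pt _) continuous_const
      have hm : z ∈ {w : ℂ | infDist w Dᶜ < ε / 2} := by
        show infDist z Dᶜ < ε / 2
        rw [infDist_zero hz]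
        positivity
      have h3 : (fun z => χ z * φ z * g z) =ᶠ[𝓝 z] fun _ => 0 := by
        filter_upwards [ho.mem_nhds hm] with w hw
        rw [hχ0 w (le_of_lt hw)]
        ring
      refine ((Pool.Agent.Y251.CP.hasDbar_const 0 z).congr_ev h3).congr ?_
      have e1 := a2 z hz
      have e2 := b2 z hz
      rw [e1, e2, add_zero]
  have hgr := green (fun z => χ z * φ z * g z) (fun z => (χ z * dbar φ z) * g z + (φ z * dbar χ z) * g z)
    0 3 (by norm_num) hder (a1.add b1).continuousOn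
  have hbd : ∀ θ : ℝ, χ (0 + (3 : ℝ) * cexp (θ * I)) = 0 := by
    intro θ
    apply hχ0
    rw [infDist_zero]
    · positivity
    · intro h
      have := Qc_norm (hsub h)
      rw [zero_add, norm_mul, norm_exp_ofReal_mul_I, norm_real] at this
      norm_num at this
  simp only [hbd, zero_mul, intervalIntegral.integral_zero] at hgr
  have hfull : ∫ z in ball (0 : ℂ) 3, ((χ z * dbar φ z) * g z + (φ z * dbar χ z) * g z) =
      ∫ z, ((χ z * dbar φ z) * g z + (φ z * dbar χ z) * g z) := by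
    apply setIntegral_eq_integral_of_forall_compl_eq_zero
    intro z hz
    have hzD : z ∉ D := by
      intro h
      apply hz
      have := Qc_norm (hsub h)
      rw [mem_ball, dist_zero_right]
      linarith
    have e1 := a2 z hzD
    have e2 := b2 z hzD
    rw [e1, e2, add_zero]
  rw [hfull, integral_add a3 b3] at hgr
  have h4 : (2 : ℂ) ≠ 0 := two_ne_zero
  have h5 := (mul_eq_zero.1 hgr).resolve_left h4
  exact eq_neg_of_add_eq_zero_left h5

end Pool.Agent.Y251.HB
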