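import Mathlib
import Pool.Agent.Y251.HB.I2
set_option autoImplicit false

/-! # Domains whose boundary has linear growth are good domains: conclusion -/

namespace Pool.Agent.Y251.HB

open MeasureTheory Set Metric Complex Filter
open Pool.Agent.Y251.CP (HasDbar dbar green hasDbar_of_holo)
open scoped ENNReal NNReal ComplexConjugate Topology

/-- the growth of the measure of the cut-off -/
lemma growth {A : ℝ} {D : Set ℂ} (hR : Reg A D) {ε : ℝ} (hε : 0 < ε) {S : Set ℂ}
    (hS : S ⊆ cthickening (3 * ε) (frontier D)) (z : ℂ) {r : ℝ} (hr : 0 < r) :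
    (ENNReal.ofReal ε⁻¹ • (volume : Measure ℂ).restrict S) (closedBall z r) ≤
      ENNReal.ofReal ((6 * |A| + 10) * r) := by
  rw [Measure.smul_apply, Measure.restrict_apply measurableSet_closedBall, smul_eq_mul]
  by_cases h : 3 * ε ≤ 2 * r
  · have h1 : volume (closedBall z r ∩ S) ≤ ENNReal.ofReal (|A| * (2 * r) * (3 * ε)) := by
      calc volume (closedBall z r ∩ S) ≤ volume (ball z (2 * r) ∩ cthickening (3 * ε) (frontier D)) := by
            apply measure_mono
            apply inter_subset_inter _ hS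
            exact closedBall_subset_ball (by linarith)
        _ ≤ ENNReal.ofReal (A * (2 * r) * (3 * ε)) := hR z (3 * ε) (2 * r) (by positivity) h
        _ ≤ _ := by
            apply ENNReal.ofReal_le_ofReal
            have := le_abs_self A
            gcongr
    calc ENNReal.ofReal ε⁻¹ * volume (closedBall z r ∩ S)
        ≤ ENNReal.ofReal ε⁻¹ * ENNReal.ofReal (|A| * (2 * r) * (3 * ε)) := by gcongr
      _ = ENNReal.ofReal (6 * |A| * r) := by
          rw [← ENNReal.ofReal_mul (by positivity)]
          congr 1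
          field_simp
          ring
      _ ≤ _ := by
          apply ENNReal.ofReal_le_ofReal
          nlinarith
  · push Not at h
    have h1 : volume (closedBall z r ∩ S) ≤ ENNReal.ofReal (4 * r ^ 2) := by
      calc volume (closedBall z r ∩ S) ≤ volume (closedBall z r) := measure_mono inter_subset_left
        _ = NNReal.pi * ENNReal.ofReal r ^ 2 := by rw [Complex.volume_closedBall, mul_comm]
        _ ≤ _ := by
            rw [← ENNReal.ofReal_pow hr.le, ← ENNReal.ofReal_coe_nnreal, ← ENNReal.ofReal_mul (by positivity)]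
            apply ENNReal.ofReal_le_ofReal
            have := Real.pi_lt_four
            have e : ((NNReal.pi : ℝ≥0) : ℝ) = Real.pi := rfl
            rw [e]
            gcongr
    calc ENNReal.ofReal ε⁻¹ * volume (closedBall z r ∩ S)
        ≤ ENNReal.ofReal ε⁻¹ * ENNReal.ofReal (4 * r ^ 2) := by gcongr
      _ = ENNReal.ofReal (4 * r * (r / ε)) := by
          rw [← ENNReal.ofReal_mul (by positivity)]
          congr 1
          field_simp
      _ ≤ _ := by
          apply ENNReal.ofReal_le_ofReal
          have h2 : r / ε ≤ 3 / 2 := by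
            rw [div_le_iff₀ hε]
            linarith
          have h3 := abs_nonneg A
          have h4 : 4 * r * (r / ε) ≤ 4 * r * (3 / 2) := by gcongr
          nlinarith [mul_nonneg h3 hr.le]

/-- domains whose boundary has linear growth are good -/
theorem reg_good {q : ℝ} (hq : 2 < q) (A : ℝ) : ∃ A' : ℝ≥0, ∀ D : Set ℂ, IsOpen D → D ⊆ Qc → Reg A D →
    Good q A' D := by
  obtain ⟨A', hA'⟩ := frost hq (6 * |A| + 10)
  refine ⟨A', ?_⟩
  intro D hop hsub hR
  set ε : ℕ → ℝ := fun k => ((k : ℝ) + 1)⁻¹ with hεd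
  have hε : ∀ k, 0 < ε k := fun k => by simp only [hεd]; positivity
  have hεl : Tendsto ε atTop (𝓝 0) := by
    have h2 := (tendsto_natCast_atTop_atTop (R := ℝ)).atTop_add (tendsto_const_nhds (x := (1 : ℝ)))
    exact tendsto_inv_atTop_zero.comp h2
  choose χ hχs hχ1 hχ0 hχe hχl using fun k => cutoff D (hε k)
  set X : ℕ → ℂ → ℂ := fun k z => ((χ k z : ℝ) : ℂ) with hX
  have hXs : ∀ k, ContDiff ℝ ((⊤ : ℕ∞) : WithTop ℕ∞) (X k) := fun k =>
    (Complex.ofRealCLM.contDiff).comp (hχs k)
  have hX1 : ∀ k z, ‖X k z‖ ≤ 1 := by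
    intro k z
    simp only [hX]
    rw [norm_real, Real.norm_eq_abs]
    exact hχ1 k z
  have hX0 : ∀ k z, infDist z Dᶜ ≤ ε k / 2 → X k z = 0 := by
    intro k z h
    simp only [hX]
    rw [hχ0 k z h, ofReal_zero]
  have hXlip : ∀ k, LipschitzWith (ε k)⁻¹.toNNReal (X k) := by
    intro k
    apply LipschitzWith.of_dist_le_mul
    intro z w
    rw [Real.coe_toNNReal _ (inv_nonneg.2 (hε k).le), dist_eq_norm, dist_eq_norm]
    simp only [hX]
    rw [← ofReal_sub, norm_real, Real.norm_eq_abs, inv_mul_eq_div]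
    exact hχl k z w
  have hXd : ∀ k z, ‖dbar (X k) z‖ ≤ (ε k)⁻¹ := by
    intro k z
    have h1 := norm_fderiv_le_of_lipschitz ℝ (hXlip k) (x₀ := z)
    rw [Real.coe_toNNReal _ (inv_nonneg.2 (hε k).le)] at h1
    unfold dbar
    rw [norm_div]
    have h2 : ‖fderiv ℝ (X k) z 1‖ ≤ (ε k)⁻¹ := by
      refine ((fderiv ℝ (X k) z).le_opNorm 1).trans ?_
      rw [norm_one, mul_one]
      exact h1
    have h3 : ‖fderiv ℝ (X k) z I‖ ≤ (ε k)⁻¹ := by
      refine ((fderiv ℝ (X k) z).le_opNorm I).trans ?_
      rw [norm_I, mul_one]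
      exact h1
    have h4 : ‖fderiv ℝ (X k) z 1 + I * fderiv ℝ (X k) z I‖ ≤ (ε k)⁻¹ + (ε k)⁻¹ := by
      refine (norm_add_le _ _).trans ?_
      rw [norm_mul, norm_I, one_mul]
      exact add_le_add h2 h3
    have h5 : ‖(2 : ℂ)‖ = 2 := by norm_num
    rw [h5]
    linarith
  have hXV : ∀ k w, infDist w Dᶜ < ε k / 2 → dbar (X k) w = 0 := by
    intro k w hw
    have ho : IsOpen {w : ℂ | infDist w Dᶜ < ε k / 2} :=
      isOpen_lt (continuous_infDist_pt _) continuous_const
    have h1 : X k =ᶠ[𝓝 w] fun _ => 0 := by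
      filter_upwards [ho.mem_nhds hw] with v hv
      exact hX0 k v (le_of_lt hv)
    unfold dbar
    rw [h1.fderiv_eq]
    simp
  have hXU : ∀ k w, 5 / 2 * ε k < infDist w Dᶜ → dbar (X k) w = 0 := by
    intro k w hw
    have ho : IsOpen {w : ℂ | 5 / 2 * ε k < infDist w Dᶜ} :=
      isOpen_lt continuous_const (continuous_infDist_pt _)
    have h1 : X k =ᶠ[𝓝 w] fun _ => 1 := by
      filter_upwards [ho.mem_nhds hw] with v hv
      simp only [hX]
      rw [hχe k v (le_of_lt hv), ofReal_one]
    unfold dbar
    rw [h1.fderiv_eq]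
    simp
  have hcd : ∀ k, Continuous (dbar (X k)) := by
    intro k
    have h1 : Continuous (fderiv ℝ (X k)) := (hXs k).continuous_fderiv (by simp)
    unfold dbar
    fun_prop
  have hDne : D ≠ univ := by
    intro h
    have := Qc_ne hsub
    rw [h, compl_univ] at this
    exact not_nonempty_empty this
  set S : ℕ → Set ℂ := fun k => D ∩ cthickening (3 * ε k) (frontier D) with hS
  have hSm : ∀ k, MeasurableSet (S k) := fun k => hop.measurableSet.inter isClosed_cthickening.measurableSet
  have hsupp : ∀ k z, z ∉ S k → dbar (X k) z = 0 := by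
    intro k z hz
    have hk := hε k
    by_cases hzD : z ∈ D
    · apply hXU
      obtain ⟨y, hy, hy2⟩ := exists_mem_frontier_infDist_compl_eq_dist hzD hDne
      by_contra hc
      push Not at hc
      apply hz
      refine ⟨hzD, ?_⟩
      apply mem_cthickening_of_dist_le z y _ _ hy
      rw [← hy2]
      linarith
    · apply hXV
      rw [infDist_zero hzD]
      positivity
  refine ⟨hop, hsub, X, fun k => ENNReal.ofReal (ε k)⁻¹ • (volume : Measure ℂ).restrict (S k),
    fun k z => (ε k : ℂ) * dbar (X k) z, fun k => (hXs k).continuous.measurable, hX1, ?_, ?_, ?_, ?_, ?_, ?_,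
    ?_⟩
  · intro k z hz
    apply hX0
    rw [infDist_zero hz]
    have := hε k
    positivity
  · intro z hz
    have hpos : 0 < infDist z Dᶜ := by
      rw [← hop.isClosed_compl.notMem_iff_infDist_pos (Qc_ne hsub)]
      exact fun h => h hz
    have h1 : Tendsto (fun k => 5 / 2 * ε k) atTop (𝓝 0) := by
      have := hεl.const_mul (5 / 2)
      rwa [mul_zero] at this
    apply tendsto_const_nhds.congr'
    filter_upwards [h1.eventually_lt_const hpos] with k hk
    simp only [hX]
    rw [hχe k z hk.le, ofReal_one]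
  · intro k
    apply hA'
    · intro z r hr
      exact growth hR (hε k) inter_subset_right z hr
    · apply Measure.ae_smul_measure
      filter_upwards [ae_restrict_mem (hSm k)] with w hw
      have := Qc_norm (hsub hw.1)
      linarith
  · exact fun k => ((hcd k).measurable).const_mul _
  · intro k z
    rw [norm_mul, norm_real, Real.norm_of_nonneg (hε k).le]
    calc ε k * ‖dbar (X k) z‖ ≤ ε k * (ε k)⁻¹ := mul_le_mul_of_nonneg_left (hXd k z) (hε k).le
      _ = 1 := mul_inv_cancel₀ (hε k).ne'
  · intro k z hz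
    simp only
    rw [hsupp k z (fun h => hz h.1), mul_zero]
  · intro k g hg φ hφ _
    rw [parts hop hsub (hε k) (hXs k) (hX0 k) hg hφ, integral_smul_measure,
      ENNReal.toReal_ofReal (inv_nonneg.2 (hε k).le), ← integral_neg]
    have h1 : ∫ z in S k, -(φ z * ((ε k : ℂ) * dbar (X k) z)) * g z =
        ∫ z, -(φ z * ((ε k : ℂ) * dbar (X k) z)) * g z := by
      apply setIntegral_eq_integral_of_forall_compl_eq_zero
      intro z hz
      rw [hsupp k z hz]
      ring
    rw [h1, ← integral_smul]
    apply integral_congr_ae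
    refine ae_of_all _ fun z => ?_
    have hne : (ε k : ℂ) ≠ 0 := by exact_mod_cast (hε k).ne'
    simp only [real_smul, ofReal_inv]
    field_simp

end Pool.Agent.Y251.HB
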